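import Pool.Agent.TH80.OMS.Sym

/-!
# Symmetric `Ω`-stable diffeomorphisms: density of relative periodic points, one-dimensional orbit
spaces
-/

set_option autoImplicit false
set_option linter.unusedSectionVars false

open scoped Manifold ContDiff Topology NNReal
open Filter Set Metric

universe u

namespace Pool.Agent.TH80.OMS

open Pool.Agent.H718R2.G Pool.Agent.W564.SC Pool.Agent.TH290.CL Pool.Agent.TH80.CLX

section interval

theorem mono_nonwand (g : ℝ → ℝ) (I : Set ℝ) (hm : StrictMonoOn g I) (hc : ContinuousOn g I)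
    (hI : MapsTo g I I) (u : ℝ) (hu : u ∈ I)
    (h : ∀ ε > 0, ∃ v ∈ I, |v - u| < ε ∧ ∃ k : ℕ, 1 ≤ k ∧ |g^[k] v - u| < ε) : g u = u := by
  have hit : ∀ k, ∀ v ∈ I, g^[k] v ∈ I := fun k v hv => hI.iterate k hv
  by_contra hne
  rcases lt_or_gt_of_ne hne with hlt | hlt
  · obtain ⟨d, hd⟩ : ∃ d : ℝ, d = (u - g u) / 2 := ⟨_, rfl⟩
    have hd0 : 0 < d := by rw [hd]; linarith
    obtain ⟨ε₁, hε₁, hε₁'⟩ := Metric.continuousOn_iff.1 hc u hu d hd0
    obtain ⟨v, hv, hvu, k, hk, hkv⟩ := h (min ε₁ d) (lt_min hε₁ hd0)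
    have h1 : ∀ k, 1 ≤ k → g^[k] v < u - d := by
      intro k hk
      induction k with
      | zero => omega
      | succ k ih =>
        rw [Function.iterate_succ_apply']
        rcases Nat.eq_zero_or_pos k with h0 | h0
        · subst h0
          have h2 := hε₁' v hv (by rw [Real.dist_eq]; exact hvu.trans_le (min_le_left _ _))
          rw [Real.dist_eq, abs_lt] at h2
          show g v < u - d
          linarith [h2.2]
        · have h3 := ih h0
          have h4 := hm (hit k v hv) hu (by linarith)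
          linarith
    have h5 := h1 k hk
    have h6 := (abs_lt.1 hkv).1
    have h7 := min_le_right ε₁ d
    linarith
  · obtain ⟨d, hd⟩ : ∃ d : ℝ, d = (g u - u) / 2 := ⟨_, rfl⟩
    have hd0 : 0 < d := by rw [hd]; linarith
    obtain ⟨ε₁, hε₁, hε₁'⟩ := Metric.continuousOn_iff.1 hc u hu d hd0
    obtain ⟨v, hv, hvu, k, hk, hkv⟩ := h (min ε₁ d) (lt_min hε₁ hd0)
    have h1 : ∀ k, 1 ≤ k → u + d < g^[k] v := by
      intro k hk
      induction k with
      | zero => omega
      | succ k ih =>
        rw [Function.iterate_succ_apply']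
        rcases Nat.eq_zero_or_pos k with h0 | h0
        · subst h0
          have h2 := hε₁' v hv (by rw [Real.dist_eq]; exact hvu.trans_le (min_le_left _ _))
          rw [Real.dist_eq, abs_lt] at h2
          show u + d < g v
          linarith [h2.1]
        · have h3 := ih h0
          have h4 := hm hu (hit k v hv) (by linarith)
          linarith
    have h5 := h1 k hk
    have h6 := (abs_lt.1 hkv).2
    have h7 := min_le_right ε₁ d
    linarith

/-- nonwandering points of injective maps of an interval have period `1` or `2` -/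
theorem interval_nonwand (f : ℝ → ℝ) (a b : ℝ) (hab : a ≤ b) (hc : ContinuousOn f (Icc a b))
    (hi : InjOn f (Icc a b)) (hI : MapsTo f (Icc a b) (Icc a b)) (u : ℝ) (hu : u ∈ Icc a b)
    (h : ∀ ε > 0, ∃ v ∈ Icc a b, |v - u| < ε ∧ ∃ k : ℕ, 1 ≤ k ∧ |f^[k] v - u| < ε) :
    f (f u) = u := by
  rcases hc.strictMonoOn_of_injOn_Icc' hab hi with hm | hm
  · have h1 := mono_nonwand f _ hm hc hI u hu h
    rw [h1, h1]
  · by_contra hne
    -- a fixed point
    obtain ⟨c, hcI, hfc⟩ : ∃ c ∈ Icc a b, f c = c := by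
      have h1 : ContinuousOn (fun t => f t - t) (Icc a b) := hc.sub continuousOn_id
      have h2 := intermediate_value_Icc' hab h1
      obtain ⟨c, hc1, hc2⟩ := h2 (show (0 : ℝ) ∈ Icc (f b - b) (f a - a) from
        ⟨by linarith [(hI (right_mem_Icc.2 hab)).2], by linarith [(hI (left_mem_Icc.2 hab)).1]⟩)
      exact ⟨c, hc1, sub_eq_zero.1 hc2⟩
    have huc : u ≠ c := by
      rintro rfl
      exact hne (by rw [hfc, hfc])
    have hm2 : StrictMonoOn (f ∘ f) (Icc a b) := hm.comp hm hI
    have hc2 : ContinuousOn (f ∘ f) (Icc a b) := hc.comp hc hI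
    have hI2 : MapsTo (f ∘ f) (Icc a b) (Icc a b) := hI.comp hI
    apply hne
    have hside1 : ∀ v ∈ Icc a b, v < c → ∀ k, (Even k → f^[k] v < c) ∧ (Odd k → c < f^[k] v) := by
      intro v hv hvc k
      induction k with
      | zero => exact ⟨fun _ => hvc, fun h => by simp at h⟩
      | succ k ih =>
        have hkI := hI.iterate k hv
        rw [Function.iterate_succ_apply']
        constructor
        · intro he
          have h1 : Odd k := by
            rcases Nat.even_or_odd k with h | h
            · exact absurd he (by simpa [Nat.even_add_one] using h)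
            · exact h
          have h2 := hm hcI hkI (ih.2 h1)
          rwa [hfc] at h2
        · intro ho
          have h1 : Even k := by
            rcases Nat.even_or_odd k with h | h
            · exact h
            · exact absurd ho (by simpa [Nat.odd_add_one] using h)
          have h2 := hm hkI hcI (ih.1 h1)
          rwa [hfc] at h2
    have hside2 : ∀ v ∈ Icc a b, c < v → ∀ k, (Even k → c < f^[k] v) ∧ (Odd k → f^[k] v < c) := by
      intro v hv hvc k
      induction k with
      | zero => exact ⟨fun _ => hvc, fun h => by simp at h⟩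
      | succ k ih =>
        have hkI := hI.iterate k hv
        rw [Function.iterate_succ_apply']
        constructor
        · intro he
          have h1 : Odd k := by
            rcases Nat.even_or_odd k with h | h
            · exact absurd he (by simpa [Nat.even_add_one] using h)
            · exact h
          have h2 := hm hkI hcI (ih.2 h1)
          rwa [hfc] at h2
        · intro ho
          have h1 : Even k := by
            rcases Nat.even_or_odd k with h | h
            · exact h
            · exact absurd ho (by simpa [Nat.odd_add_one] using h)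
          have h2 := hm hcI hkI (ih.1 h1)
          rwa [hfc] at h2
    apply mono_nonwand (f ∘ f) _ hm2 hc2 hI2 u hu
    intro ε hε
    obtain ⟨v, hv, hvu, k, hk, hkv⟩ := h (min ε |u - c|) (lt_min hε (abs_pos.2 (sub_ne_zero.2 huc)))
    have hε1 := min_le_left ε |u - c|
    have hε2 := min_le_right ε |u - c|
    have hev : Even k := by
      rcases Nat.even_or_odd k with he | ho
      · exact he
      exfalso
      rcases lt_or_gt_of_ne huc with huc' | huc'
      · have hε3 : min ε |u - c| ≤ -(u - c) :=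
          hε2.trans_eq (abs_of_neg (by linarith : u - c < 0))
        have h1 : v < c := by linarith [(abs_lt.1 hvu).2]
        have h2 := (hside1 v hv h1 k).2 ho
        linarith [(abs_lt.1 hkv).2]
      · have hε3 : min ε |u - c| ≤ u - c :=
          hε2.trans_eq (abs_of_pos (by linarith : 0 < u - c))
        have h1 : c < v := by linarith [(abs_lt.1 hvu).1]
        have h2 := (hside2 v hv h1 k).2 ho
        linarith [(abs_lt.1 hkv).1]
    obtain ⟨l, hl⟩ := hev
    refine ⟨v, hv, hvu.trans_le hε1, l, by omega, ?_⟩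
    have h1 : (f ∘ f)^[l] v = f^[k] v := by
      have h2 : (f ∘ f) = f^[2] := rfl
      rw [h2, ← Function.iterate_mul, show 2 * l = k by omega]
    rw [h1]
    exact hkv.trans_le hε1

end interval

section

variable {n : ℕ} {N : Type u} [TopologicalSpace N] [ChartedSpace (V n) N] [IsManifold (𝓡 n) ∞ N]
  [T2Space N] [CompactSpace N]

/-- If the orbit space embeds into the line, nonwandering points are relative periodic, `F²(x) ∈ G x`. -/
theorem orbit_space_interval [ConnectedSpace N] {r : ℕ∞} (F : DiffM n N r) {G : Type}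
    (act : G → N → N) (hcom : ∀ g y, F (act g y) = act g (F y)) (q : N → ℝ) (hq : Continuous q)
    (hqG : ∀ x y, q x = q y ↔ ∃ g, act g x = y) (x : N) (hx : x ∈ Omega F) :
    ∃ g, F^[2] x = act g x := by
  classical
  have hsec : ∀ t : ℝ, ∃ y : N, t ∈ range q → q y = t := by
    intro t
    by_cases ht : t ∈ range q
    · obtain ⟨y, hy⟩ := ht
      exact ⟨y, fun _ => hy⟩
    · exact ⟨x, fun h => absurd h ht⟩
  choose σ hσ using hsec
  obtain ⟨f, hfd⟩ : ∃ f : ℝ → ℝ, f = fun t => q (F (σ t)) := ⟨_, rfl⟩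
  have hf : ∀ y, f (q y) = q (F y) := by
    intro y
    rw [hfd]
    show q (F (σ (q y))) = q (F y)
    rw [hqG]
    obtain ⟨g, hg⟩ := (hqG (σ (q y)) y).1 (hσ _ ⟨y, rfl⟩)
    exact ⟨g, by rw [← hcom, hg]⟩
  have hfk : ∀ k y, f^[k] (q y) = q (F^[k] y) := by
    intro k y
    induction k with
    | zero => rfl
    | succ k ih => rw [Function.iterate_succ_apply', ih, hf, Function.iterate_succ_apply' F]
  have hconn : IsConnected (range q) := isConnected_range hq
  have hcomp : IsCompact (range q) := isCompact_range hq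
  obtain ⟨a, b, hIcc⟩ : ∃ a b, range q = Icc a b :=
    ⟨_, _, eq_Icc_of_connected_compact hconn hcomp⟩
  have hab : a ≤ b := by
    have h1 : q x ∈ Icc a b := by rw [← hIcc]; exact ⟨x, rfl⟩
    exact h1.1.trans h1.2
  have hmaps : MapsTo f (Icc a b) (Icc a b) := by
    rw [← hIcc]
    rintro t ⟨y, rfl⟩
    rw [hf]
    exact ⟨_, rfl⟩
  have hcont : ContinuousOn f (Icc a b) := by
    rw [← hIcc, continuousOn_iff_continuous_domRestrict]
    have h0 : Continuous (Set.rangeFactorization q) := continuous_rangeFactorization_iff.2 hq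
    have h1 : Topology.IsQuotientMap (Set.rangeFactorization q) :=
      h0.isClosedMap.isQuotientMap h0 Set.rangeFactorization_surjective
    rw [h1.continuous_iff]
    have h2 : (range q).domRestrict f ∘ Set.rangeFactorization q = q ∘ F := by
      funext y
      exact hf y
    rw [h2]
    exact hq.comp F.continuous
  have hinj : InjOn f (Icc a b) := by
    rw [← hIcc]
    rintro t ⟨y, rfl⟩ t' ⟨y', rfl⟩ h
    rw [hf, hf, hqG] at h
    obtain ⟨g, hg⟩ := h
    rw [← hcom] at hg
    rw [hqG]
    exact ⟨g, F.injective hg⟩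
  have h2 := interval_nonwand f a b hab hcont hinj hmaps (q x) (by rw [← hIcc]; exact ⟨x, rfl⟩) (by
    intro ε hε
    obtain ⟨k, hk, y, hy, hyk⟩ := hx (q ⁻¹' ball (q x) ε) (isOpen_ball.preimage hq)
      (mem_ball_self hε)
    refine ⟨q y, by rw [← hIcc]; exact ⟨y, rfl⟩, ?_, k, hk, ?_⟩
    · have := mem_ball.1 hy
      rwa [Real.dist_eq] at this
    · rw [hfk]
      have := mem_ball.1 hyk
      rwa [Real.dist_eq] at this)
  rw [hf, hf] at h2
  obtain ⟨g, hg⟩ := (hqG _ _).1 h2.symm
  exact ⟨g, hg.symm⟩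

theorem omega_closed (F : N → N) : IsClosed (Omega F) := by
  rw [← isOpen_compl_iff, isOpen_iff_mem_nhds]
  intro x hx
  have h1 : ∃ W : Set N, IsOpen W ∧ x ∈ W ∧ ∀ k : ℕ, 1 ≤ k → ∀ y ∈ W, F^[k] y ∉ W := by
    by_contra h
    apply hx
    intro W hW hxW
    by_contra h2
    apply h
    refine ⟨W, hW, hxW, fun k hk y hy hyk => h2 ⟨k, hk, y, hy, hyk⟩⟩
  obtain ⟨W, hW, hxW, h⟩ := h1
  filter_upwards [hW.mem_nhds hxW] with z hz hzO
  obtain ⟨k, hk, y, hy, hyk⟩ := hzO W hW hz
  exact h k hk y hy hyk

variable {r : ℕ∞} (hr : 1 ≤ r) {F : DiffM n N r} (hF : OmegaStable n N r F)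
    {G : Type} [Group G] [TopologicalSpace G] [CompactSpace G] [PreconnectedSpace G] {q : ℕ}
    {ι : G →* Matrix (Fin q) (Fin q) ℂ} {act : G → N → N} (hact : IsLieAction n N ι univ act)
    (hcom : ∀ g y, F (act g y) = act g (F y))

include hr hF hact hcom

theorem sym_relper (y : N) (hy : y ∈ RelPer F act) : y ∈ Per F ∧ ∀ g, act g y = y := by
  obtain ⟨U, hU, hFU, hrel⟩ := relper_fixed hr hF hact
  have h1 := hrel F hFU hcom y hy
  obtain ⟨m, hm, g, hg⟩ := hy
  exact ⟨⟨m, hm, by rw [hg, h1]⟩, h1⟩

theorem sym_dense (hd : Omega F ⊆ closure (RelPer F act)) :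
    Omega F = closure (Per F) ∧ ∀ x ∈ Omega F, ∀ g, act g x = x := by
  have h1 : RelPer F act ⊆ Per F := fun y hy => (sym_relper hr hF hact hcom y hy).1
  have h2 : Per F ⊆ Omega F := by
    rintro y ⟨m, hm, hy⟩
    exact per_mem_omega hm hy
  refine ⟨Subset.antisymm (hd.trans (closure_mono h1)) ((omega_closed F).closure_subset_iff.2 h2),
    fun x hx g => ?_⟩
  have hcg : Continuous (act g) := by
    have h3 : Continuous (fun y : N => (g, y)) := by fun_prop
    exact hact.cont.comp_continuous h3 (fun y => ⟨mem_univ _, mem_univ _⟩)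
  have h4 : IsClosed {y : N | act g y = y} := isClosed_eq hcg continuous_id
  have h5 : RelPer F act ⊆ {y : N | act g y = y} :=
    fun y hy => (sym_relper hr hF hact hcom y hy).2 g
  exact h4.closure_subset_iff.2 h5 (hd hx)

theorem sym_spherical (hd : Omega F ⊆ closure (RelPer F act))
    (hp : ∀ p, (∀ g, act g p = p) → IsSpherical n act p) :
    (Omega F).Finite ∧ ∀ p ∈ Omega F, IsHypPer n F p := by
  obtain ⟨h1, h2⟩ := sym_dense hr hF hact hcom hd
  have hcomp : IsCompact (Omega F) := (omega_closed F).isCompact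
  have hfin : (Omega F).Finite := by
    have h3 : (Omega F ∩ Omega F).Finite := by
      refine hcomp.induction_on (p := fun W : Set N => (Omega F ∩ W).Finite) ?_ ?_ ?_ ?_
      · rw [inter_empty]
        exact finite_empty
      · intro s t hst ht
        exact ht.subset (inter_subset_inter_right _ hst)
      · intro s t hs ht
        rw [inter_union_distrib_left]
        exact hs.union ht
      · intro p hpO
        obtain ⟨χ, R, l, E, hχ, htop, hE⟩ := hp p (h2 p hpO)
        refine ⟨χ.source, mem_nhdsWithin_of_mem_nhds (χ.open_source.mem_nhds hχ.src), ?_⟩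
        apply (Set.finite_singleton p).subset
        rintro y ⟨hyO, hys⟩
        have hR : ∀ b, R b (χ y) = χ y := by
          intro b
          rw [← hχ.lin b y hys, h2 y hyO b]
        have h5 : χ y = 0 := by
          rcases Nat.eq_zero_or_pos l with hl | hl
          · subst hl
            have h6 : χ y ∈ (⨆ i, E i) := by
              rw [htop]
              exact Submodule.mem_top
            rw [iSup_of_empty, Submodule.mem_bot] at h6
            exact h6
          · obtain ⟨S, hS⟩ := (hE ⟨0, hl⟩).fix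
            have h6 : χ y ∈ E ⟨0, hl⟩ := (hS _).2 fun g _ => hR g
            obtain ⟨b, hb⟩ := (hE ⟨0, hl⟩).trans (χ y) h6 (-χ y) ((E _).neg_mem h6)
              (by rw [norm_neg])
            rw [hR] at hb
            have h7 : (2 : ℝ) • χ y = 0 := by
              rw [two_smul]
              nth_rewrite 1 [hb]
              exact neg_add_cancel _
            exact (smul_eq_zero.1 h7).resolve_left (by norm_num)
        exact χ.injOn hys hχ.src (by rw [h5, hχ.zero])
    rwa [inter_self] at h3
  refine ⟨hfin, fun p hpO => ?_⟩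
  have hsph := hp p (h2 p hpO)
  have hper : p ∈ Per F := by
    have h3 : (Per F).Finite := hfin.subset (by rw [h1]; exact subset_closure)
    rw [h1, h3.isClosed.closure_eq] at hpO
    exact hpO
  exact hyp_of_spherical hr hF hact hcom hper hsph

theorem rel_dense (hd : RelDense n N r F act) : Omega F ⊆ closure (RelPer F act) := by
  obtain ⟨U₁, hU₁, hFU₁, hrel⟩ := relper_fixed hr hF hact
  obtain ⟨U₂, hU₂, hFU₂, hconj⟩ := hF
  obtain ⟨F', ⟨hF'1, hF'2⟩, hcom', hd'⟩ := hd (U₁ ∩ U₂) (@IsOpen.inter _ (strongTop n N r) _ _ hU₁ hU₂)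
    ⟨hFU₁, hFU₂⟩
  obtain ⟨h, hh⟩ := hconj F' hF'2
  have h1 : RelPer F' act ⊆ Per F' := by
    rintro y ⟨m, hm, g, hg⟩
    refine ⟨m, hm, ?_⟩
    rw [hg, hrel F' hF'1 hcom' y ⟨m, hm, g, hg⟩ g]
  have h2 : Per F ⊆ RelPer F act := by
    rintro y ⟨m, hm, hy⟩
    exact ⟨m, hm, 1, by rw [hy, hact.one y (mem_univ _)]⟩
  intro x hx
  apply closure_mono h2
  rw [_root_.mem_closure_iff]
  intro W hW hxW
  have h3 : IsOpen ((fun z : Omega F' => ((h.symm z : Omega F) : N)) ⁻¹' W) :=
    hW.preimage (continuous_subtype_val.comp h.symm.continuous)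
  obtain ⟨W', hW', hWe⟩ := isOpen_induced_iff.1 h3
  have h4 : ((h ⟨x, hx⟩ : Omega F') : N) ∈ W' := by
    have h5 : (h ⟨x, hx⟩ : Omega F') ∈ (Subtype.val ⁻¹' W' : Set (Omega F')) := by
      rw [hWe]
      show ((h.symm (h ⟨x, hx⟩) : Omega F) : N) ∈ W
      rw [h.symm_apply_apply]
      exact hxW
    exact h5
  have h6 := closure_mono h1 (hd' (h ⟨x, hx⟩).2)
  rw [_root_.mem_closure_iff] at h6
  obtain ⟨z, hzW, m, hm, hz⟩ := h6 W' hW' h4
  have hzO : z ∈ Omega F' := per_mem_omega hm hz
  refine ⟨(h.symm ⟨z, hzO⟩ : Omega F), ?_, m, hm, ?_⟩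
  · have h7 : (⟨z, hzO⟩ : Omega F') ∈ (Subtype.val ⁻¹' W' : Set (Omega F')) := hzW
    rw [hWe] at h7
    exact h7
  · exact conj_iter F'.continuous h.symm (conj_symm F.continuous h hh) m ⟨z, hzO⟩ ⟨z, hzO⟩ hz

theorem sym_interval [ConnectedSpace N] (s : N → ℝ) (hs : Continuous s)
    (hsG : ∀ x y, s x = s y ↔ ∃ g, act g x = y) :
    Omega F ⊆ RelPer F act ∧ (Omega F).Finite := by
  have h1 : Omega F ⊆ RelPer F act := fun x hx =>
    ⟨2, by norm_num, orbit_space_interval F act hcom s hs hsG x hx⟩
  refine ⟨h1, ?_⟩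
  obtain ⟨U, hU, hFU, hfin⟩ := finite_per hr hF
  apply (hfin F hFU 2 (by norm_num)).subset
  intro x hx
  obtain ⟨g, hg⟩ := orbit_space_interval F act hcom s hs hsG x hx
  show F^[2] x = x
  rw [hg]
  exact (sym_relper hr hF hact hcom x (h1 hx)).2 g

/-- The main theorem on symmetric `Ω`-stable diffeomorphisms. -/
theorem sym_main :
    (∀ y ∈ RelPer F act, y ∈ Per F ∧ ∀ g, act g y = y) ∧
    (RelDense n N r F act → OmegaFixed F act ∧
      ((∀ p, (∀ g, act g p = p) → IsSpherical n act p) → FiniteHyp n F)) ∧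
    (ConnectedSpace N → IntervalOrbits act → RelDense n N r F act ∧ (Omega F).Finite) := by
  refine ⟨fun y hy => sym_relper hr hF hact hcom y hy, fun hd => ?_, fun hN ⟨s, hs, hsG⟩ => ?_⟩
  · have h1 := rel_dense hr hF hact hcom hd
    exact ⟨sym_dense hr hF hact hcom h1, fun hp => sym_spherical hr hF hact hcom h1 hp⟩
  · obtain ⟨h1, h2⟩ := sym_interval hr hF hact hcom s hs hsG
    exact ⟨fun U _ hFU => ⟨F, hFU, hcom, h1.trans subset_closure⟩, h2⟩

end

end Pool.Agent.TH80.OMS
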