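import Pool.Agent.TH80.OMS.CycDefs
import Pool.Agent.TH80.OMS.Sym2

/-!
# Symmetric `Ω`-stable diffeomorphisms: sinks, sources, no cycles
-/

set_option autoImplicit false
set_option linter.unusedSectionVars false

open scoped Manifold ContDiff Topology NNReal
open Filter Set Metric

universe u

namespace Pool.Agent.TH80.OMS

open Pool.Agent.H718R2.G Pool.Agent.W564.SC Pool.Agent.TH290.CL Pool.Agent.TH80.CLX

section top

variable {N : Type u} [TopologicalSpace N] [T2Space N]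

theorem stab_tendsto {F : N → N} {x y : N} {m : ℕ} (hm : 1 ≤ m) (hx : F^[m] x = x)
    (hy : y ∈ StabSet F x) : Tendsto (fun k : ℕ => F^[m * k] y) atTop (𝓝 x) := by
  have hxk : ∀ k, F^[m * k] x = x := by
    intro k
    induction k with
    | zero => rfl
    | succ k ih => rw [Nat.mul_succ, Function.iterate_add_apply, hx, ih]
  rw [_root_.tendsto_nhds]
  intro W hW hxW
  obtain ⟨K, hK⟩ := hy ((W ×ˢ W) ∪ ({x}ᶜ ×ˢ univ))
    ((hW.prod hW).union (isOpen_compl_singleton.prod isOpen_univ)) (by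
      intro z
      by_cases hz : z = x
      · left
        exact ⟨by rw [hz]; exact hxW, by rw [hz]; exact hxW⟩
      · right
        exact ⟨hz, mem_univ _⟩)
  filter_upwards [eventually_ge_atTop K] with k hk
  have h1 := hK (m * k) (by nlinarith)
  rw [hxk] at h1
  rcases h1 with h1 | h1
  · exact h1.2
  · exact absurd rfl h1.1

theorem stab_shift {F : N → N} {E : N → N} (hE : Continuous E)
    (hEF : ∀ z, F (E z) = z) (hFE : ∀ z, E (F z) = z) {x y : N} (j : ℕ)
    (hy : y ∈ StabSet F x) : E^[j] y ∈ StabSet F (E^[j] x) := by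
  intro V hV hd
  obtain ⟨K, hK⟩ := hy ((fun p : N × N => (E^[j] p.1, E^[j] p.2)) ⁻¹' V)
    (hV.preimage (by
      have := hE.iterate j
      fun_prop)) (fun z => hd _)
  refine ⟨K, fun k hk => ?_⟩
  have h1 := hK k hk
  have hc : Function.Commute F E := fun z => by rw [hEF, hFE]
  have h2 : ∀ z, F^[k] (E^[j] z) = E^[j] (F^[k] z) := fun z => (hc.iterate_iterate k j) z
  rw [h2, h2]
  exact h1

theorem stab_shift' {F : N → N} {x y : N} (j : ℕ)
    (hy : y ∈ StabSet F x) : F^[j] y ∈ StabSet F (F^[j] x) := by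
  intro V hV hd
  obtain ⟨K, hK⟩ := hy V hV hd
  refine ⟨K, fun k hk => ?_⟩
  rw [← Function.iterate_add_apply, ← Function.iterate_add_apply]
  exact hK (k + j) (by omega)

theorem per_stab_eq {F : N → N} {x y : N} (hx : x ∈ Per F) (hy : y ∈ Per F)
    (h : y ∈ StabSet F x) : y = x := by
  obtain ⟨m, hm, hx⟩ := hx
  obtain ⟨l, hl, hy⟩ := hy
  have hx' : F^[m * l] x = x :=
    (show Function.IsPeriodicPt F m x from hx).mul_const l
  have hy' : ∀ k, F^[m * l * k] y = y := fun k =>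
    ((show Function.IsPeriodicPt F l y from hy).const_mul m).mul_const k
  have h1 := stab_tendsto (m := m * l) (by nlinarith) hx' h
  have h2 : (fun k : ℕ => F^[m * l * k] y) = fun _ => y := by
    funext k
    exact hy' k
  rw [h2] at h1
  exact tendsto_nhds_unique tendsto_const_nhds h1

theorem orbit_eq {F : N → N} {p : N} (hp : p ∈ Per F) (a : ℕ) :
    (range fun j : ℕ => F^[j] p) = range fun j : ℕ => F^[j] (F^[a] p) := by
  obtain ⟨m, hm, hp⟩ := hp
  apply Subset.antisymm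
  · rintro _ ⟨j, rfl⟩
    have h1 : F^[m * a] p = p := (show Function.IsPeriodicPt F m p from hp).mul_const a
    refine ⟨j + (m * a - a), ?_⟩
    show F^[j + (m * a - a)] (F^[a] p) = F^[j] p
    rw [← Function.iterate_add_apply, show j + (m * a - a) + a = j + m * a by
      have : a ≤ m * a := by nlinarith
      omega, Function.iterate_add_apply, h1]
  · rintro _ ⟨j, rfl⟩
    refine ⟨j + a, ?_⟩
    show F^[j + a] p = F^[j] (F^[a] p)
    rw [Function.iterate_add_apply]

theorem per_orbit {F : N → N} {p : N} (hp : p ∈ Per F) (a : ℕ) : F^[a] p ∈ Per F := by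
  obtain ⟨m, hm, hp⟩ := hp
  refine ⟨m, hm, ?_⟩
  rw [← Function.iterate_add_apply, Nat.add_comm, Function.iterate_add_apply, hp]

end top

section

variable {n : ℕ} {N : Type u} [TopologicalSpace N] [ChartedSpace (V n) N] [IsManifold (𝓡 n) ∞ N]
  [T2Space N] [CompactSpace N]

theorem iter_symm {r : ℕ∞} (F : DiffM n N r) (k : ℕ) (y : N) : F^[k] (F.symm^[k] y) = y :=
  (Function.LeftInverse.iterate (g := F) (f := F.symm) (fun z => F.apply_symm_apply z) k) y

theorem symm_iter {r : ℕ∞} (F : DiffM n N r) (k : ℕ) (y : N) : F.symm^[k] (F^[k] y) = y :=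
  (Function.LeftInverse.iterate (g := F.symm) (f := F) (fun z => F.symm_apply_apply z) k) y

theorem per_symm {r : ℕ∞} (F : DiffM n N r) {x : N} (hx : x ∈ Per F) : x ∈ Per F.symm := by
  obtain ⟨m, hm, h⟩ := hx
  refine ⟨m, hm, ?_⟩
  nth_rewrite 1 [← h]
  exact symm_iter F m x

/-- the coordinate distance to a sink or a source is monotone along the orbits -/
theorem near_mono {r : ℕ∞} (F : DiffM n N r) {x : N} {m : ℕ} (hx : F^[m] x = x)
    {ψ : OpenPartialHomeomorph N (V n)} (hxs : x ∈ ψ.source) {D : V n →L[ℝ] V n}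
    (hD : HasFDerivAt (fun u => ψ (F^[m] (ψ.symm u))) D (ψ x)) {c : ℝ}
    (hc : ∀ w, ‖D w‖ = c * ‖w‖) :
    (c < 1 → ∀ᶠ z in 𝓝 x, ‖ψ (F^[m] z) - ψ x‖ ≤ ‖ψ z - ψ x‖) ∧
    (1 < c → ∀ᶠ z in 𝓝 x, ‖ψ z - ψ x‖ ≤ ‖ψ (F^[m] z) - ψ x‖) := by
  have hg0 : ψ (F^[m] (ψ.symm (ψ x))) = ψ x := by rw [ψ.left_inv hxs, hx]
  have hψ : Tendsto ψ (𝓝 x) (𝓝 (ψ x)) := (ψ.continuousAt hxs)
  have key : ∀ ε > 0, ∀ᶠ z in 𝓝 x, ‖ψ (F^[m] z) - ψ x - D (ψ z - ψ x)‖ ≤ ε * ‖ψ z - ψ x‖ := by
    intro ε hε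
    have h1 := hD.isLittleO.def hε
    filter_upwards [hψ.eventually h1, ψ.open_source.mem_nhds hxs] with z hz hzs
    rw [hg0, ψ.left_inv hzs] at hz
    exact hz
  constructor
  · intro hc1
    filter_upwards [key (1 - c) (by linarith)] with z hz
    have h1 := norm_sub_norm_le (ψ (F^[m] z) - ψ x) (D (ψ z - ψ x))
    rw [hc] at h1
    nlinarith
  · intro hc1
    filter_upwards [key (c - 1) (by linarith)] with z hz
    have h1 := norm_sub_norm_le (D (ψ z - ψ x)) (ψ (F^[m] z) - ψ x)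
    rw [norm_sub_rev (D (ψ z - ψ x)) (ψ (F^[m] z) - ψ x), hc] at h1
    nlinarith

theorem mono_zero {a : ℕ → ℝ} (ha : ∀ k, 0 ≤ a k) {K : ℕ} (hm : ∀ k ≥ K, a k ≤ a (k + 1))
    (ht : Tendsto a atTop (𝓝 0)) : a K = 0 := by
  apply le_antisymm _ (ha K)
  apply ge_of_tendsto ht
  filter_upwards [eventually_ge_atTop K] with k hk
  induction k, hk using Nat.le_induction with
  | base => exact le_rfl
  | succ k hk ih => exact ih.trans (hm k hk)

/-- a sink has a trivial unstable set, a source has a trivial stable set -/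
theorem sink_or_source {r : ℕ∞} (F : DiffM n N r) {x : N} (h : IsSinkSource n F x) :
    (∀ y ∈ StabSet F.symm x, y = x) ∨ (∀ y ∈ StabSet F x, y = x) := by
  obtain ⟨m, hm, hx, ψ, -, hxs, D, hD, c, hc1, hc⟩ := h
  obtain ⟨hA, hB⟩ := near_mono F hx hxs hD hc
  have hψ : Tendsto ψ (𝓝 x) (𝓝 (ψ x)) := (ψ.continuousAt hxs)
  have hlim : ∀ w : ℕ → N, Tendsto w atTop (𝓝 x) →
      Tendsto (fun k => ‖ψ (w k) - ψ x‖) atTop (𝓝 0) := by
    intro w hw
    have h1 : Tendsto (fun k => ‖ψ (w k) - ψ x‖) atTop (𝓝 ‖ψ x - ψ x‖) :=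
      ((hψ.comp hw).sub_const _).norm
    rwa [sub_self, norm_zero] at h1
  rcases lt_or_gt_of_ne hc1 with hlt | hgt
  · left
    intro y hy
    have hxm : F.symm^[m] x = x := by
      nth_rewrite 1 [← hx]
      exact symm_iter F m x
    have hw := stab_tendsto hm hxm hy
    have hev := (hw.eventually (hA hlt)).and (hw.eventually (ψ.open_source.mem_nhds hxs))
    obtain ⟨K, hK⟩ := eventually_atTop.1 hev
    have h1 : ‖ψ (F.symm^[m * K] y) - ψ x‖ = 0 := by
      refine mono_zero (a := fun k => ‖ψ (F.symm^[m * k] y) - ψ x‖) (fun k => norm_nonneg _)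
        (fun k hk => ?_) (hlim _ hw)
      have h2 := (hK (k + 1) (by omega)).1
      have h3 : F^[m] (F.symm^[m * (k + 1)] y) = F.symm^[m * k] y := by
        rw [Nat.mul_succ, Nat.add_comm, Function.iterate_add_apply, iter_symm]
      rw [h3] at h2
      exact h2
    have h2 : F.symm^[m * K] y = x :=
      ψ.injOn (hK K le_rfl).2 hxs (sub_eq_zero.1 (norm_eq_zero.1 h1))
    have h3 : F^[m * K] x = x := (show Function.IsPeriodicPt F m x from hx).mul_const K
    rw [← iter_symm F (m * K) y, h2, h3]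
  · right
    intro y hy
    have hw := stab_tendsto hm hx hy
    have hev := (hw.eventually (hB hgt)).and (hw.eventually (ψ.open_source.mem_nhds hxs))
    obtain ⟨K, hK⟩ := eventually_atTop.1 hev
    have h1 : ‖ψ (F^[m * K] y) - ψ x‖ = 0 := by
      refine mono_zero (a := fun k => ‖ψ (F^[m * k] y) - ψ x‖) (fun k => norm_nonneg _)
        (fun k hk => ?_) (hlim _ hw)
      have h2 := (hK k hk).1
      have h3 : F^[m] (F^[m * k] y) = F^[m * (k + 1)] y := by
        rw [Nat.mul_succ, Nat.add_comm (m * k), Function.iterate_add_apply]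
      rw [h3] at h2
      exact h2
    have h2 : F^[m * K] y = x :=
      ψ.injOn (hK K le_rfl).2 hxs (sub_eq_zero.1 (norm_eq_zero.1 h1))
    have h3 : F^[m * K] x = x := (show Function.IsPeriodicPt F m x from hx).mul_const K
    have h4 := congrArg (F.symm^[m * K]) (h2.trans h3.symm)
    rwa [symm_iter, symm_iter] at h4

/-- no cycles if the periodic points are sinks and sources -/
theorem no_cycle {r : ℕ∞} (F : DiffM n N r) (h : ∀ p ∈ Per F, IsSinkSource n F p) (k : ℕ)
    (O : Fin (k + 2) → Set N) (hinj : Function.Injective O)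
    (hO : ∀ i, ∃ p ∈ Per F, O i = range fun j : ℕ => F^[j] p)
    (hcyc : ∀ i, ∃ x ∈ O i, ∃ x' ∈ O (i + 1), (StabSet F.symm x ∩ StabSet F x').Nonempty) :
    False := by
  have hmeet : ∀ i i', ∀ x ∈ O i, x ∈ O i' → i = i' := by
    intro i i' x hx hx'
    apply hinj
    obtain ⟨p, hp, hpO⟩ := hO i
    obtain ⟨p', hp', hpO'⟩ := hO i'
    rw [hpO] at hx ⊢
    rw [hpO'] at hx' ⊢
    obtain ⟨a, ha⟩ := hx
    obtain ⟨b, hb⟩ := hx'
    rw [orbit_eq hp a, orbit_eq hp' b]
    have ha' : F^[a] p = x := ha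
    have hb' : F^[b] p' = x := hb
    rw [ha', hb']
  have hperO : ∀ i, ∀ x ∈ O i, x ∈ Per F := by
    intro i x hx
    obtain ⟨p, hp, hpO⟩ := hO i
    rw [hpO] at hx
    obtain ⟨a, ha⟩ := hx
    have ha' : F^[a] p = x := ha
    rw [← ha']
    exact per_orbit hp a
  obtain ⟨p, hp, hpO⟩ := hO 0
  have h01 : (0 : Fin (k + 2)) ≠ 0 + 1 := by
    rw [zero_add]
    exact Fin.zero_ne_one
  rcases sink_or_source F (h p hp) with hs | hs
  · obtain ⟨x, hx, x', hx', y, hy, hy'⟩ := hcyc 0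
    have h1 : y = x := by
      have hx2 := hx
      rw [hpO] at hx2
      obtain ⟨a, ha⟩ := hx2
      have ha' : F^[a] p = x := ha
      have h2 := stab_shift' a hy
      rw [← ha', symm_iter] at h2
      have h3 := hs _ h2
      rw [← ha', ← h3, iter_symm]
    rw [h1] at hy'
    have h4 : x = x' := per_stab_eq (hperO _ _ hx') (hperO _ _ hx) hy'
    rw [← h4] at hx'
    exact h01 (hmeet _ _ x hx hx')
  · obtain ⟨x, hx, x', hx', y, hy, hy'⟩ := hcyc (-1)
    rw [neg_add_cancel] at hx'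
    have h1 : y = x' := by
      have hx2 := hx'
      rw [hpO] at hx2
      obtain ⟨a, ha⟩ := hx2
      have ha' : F^[a] p = x' := ha
      have h2 := stab_shift (F := F) (E := F.symm) F.symm.continuous
        (fun z => F.apply_symm_apply z) (fun z => F.symm_apply_apply z) a hy'
      rw [← ha', symm_iter] at h2
      have h3 := hs _ h2
      rw [← ha', ← h3, iter_symm]
    rw [h1] at hy
    have h4 : x' = x := per_stab_eq (per_symm F (hperO _ _ hx)) (per_symm F (hperO _ _ hx')) hy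
    rw [h4] at hx'
    have h5 := hmeet _ _ x hx hx'
    apply h01
    rw [zero_add]
    have h6 := congrArg (fun i : Fin (k + 2) => i + 1) h5
    simp only [neg_add_cancel, zero_add] at h6
    exact h6

variable {r : ℕ∞} (hr : 1 ≤ r) {F : DiffM n N r} (hF : OmegaStable n N r F)
    {G : Type} [Group G] [TopologicalSpace G] [CompactSpace G] [PreconnectedSpace G] {q : ℕ}
    {ι : G →* Matrix (Fin q) (Fin q) ℂ} {act : G → N → N} (hact : IsLieAction n N ι univ act)
    (hcom : ∀ g y, F (act g y) = act g (F y))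

include hr hF hact hcom

theorem sinkSource_of_sphere {p : N} (hper : p ∈ Per F) (hsph : IsSphere n N act p) :
    IsSinkSource n F p := by
  obtain ⟨χ₀, R, hχ₀, hE⟩ := hsph
  obtain ⟨m, hmd⟩ : ∃ m : ℕ, m = Function.minimalPeriod F p := ⟨_, rfl⟩
  obtain ⟨m', hm'1, hm'⟩ := hper
  have hmpos : 0 < m := by
    rw [hmd]
    exact Function.IsPeriodicPt.minimalPeriod_pos (by omega) hm'
  have hmp : F^[m] p = p := by
    rw [hmd]
    exact Function.isPeriodicPt_minimalPeriod F p
  have hmin : ∀ i, 0 < i → i < m → F^[i] p ≠ p := by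
    intro i hi0 him h
    rw [hmd] at him
    exact Function.not_isPeriodicPt_of_pos_of_lt_minimalPeriod hi0.ne' him h
  obtain ⟨χ, hχ, hg, hχO⟩ := small_lin hχ₀ (((fun i => F^[i] p) '' Ioo 0 m)ᶜ)
    ((finite_Ioo 0 m).image _).isClosed.isOpen_compl (by
      rintro ⟨i, hi, hip⟩
      exact hmin i hi.1 hi.2 hip)
  have h0t : (0 : V n) ∈ χ.target := by rw [← hχ.zero]; exact χ.map_source hχ.src
  have hs0 : χ.symm 0 = p := by rw [← hχ.zero, χ.left_inv hχ.src]
  have hd : DifferentiableAt ℝ (fun u => χ (F^[m] (χ.symm u))) 0 :=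
    chart_diff hr F m hχ.mem h0t (by rw [hs0, hmp]; exact hχ.src)
  obtain ⟨c, hc, hcE⟩ := block hr hF hact hcom hmpos hmp hχ hg hχO ⊤
    ⟨⟨∅, fun w => by simp⟩, fun u _ v _ huv => hE u v huv⟩
  refine ⟨m, hmpos, hmp, χ, hχ.mem, hχ.src, fderiv ℝ (fun u => χ (F^[m] (χ.symm u))) 0, ?_, c,
    hc, fun w => (hcE w Submodule.mem_top).2⟩
  rw [hχ.zero]
  exact hd.hasFDerivAt

theorem spherical_of_sphere {p : N} (h : IsSphere n N act p) : IsSpherical n act p := by
  obtain ⟨χ, R, hχ, hE⟩ := h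
  exact ⟨χ, R, 1, fun _ => ⊤, hχ, by simp, fun _ =>
    ⟨⟨∅, fun w => by simp⟩, fun u _ v _ huv => hE u v huv⟩⟩

/-- Axiom A and the no-cycle property. -/
theorem cyc_main (hsph : ∀ p, (∀ g, act g p = p) → IsSphere n N act p)
    (hd : RelDense n N r F act ∨ (ConnectedSpace N ∧ IntervalOrbits act)) :
    OmegaFixed F act ∧ (∀ p ∈ Omega F, IsSinkSource n F p) ∧ FiniteNoCycle F := by
  obtain ⟨-, h2, h3⟩ := sym_main hr hF hact hcom
  have hd' : RelDense n N r F act := hd.elim id fun h => (h3 h.1 h.2).1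
  obtain ⟨h4, h5⟩ := h2 hd'
  obtain ⟨hfin, -⟩ := h5 fun p hp => spherical_of_sphere hr hF hact hcom (hsph p hp)
  have hPO : Per F ⊆ Omega F := by
    rintro y ⟨m, hm, hy⟩
    exact per_mem_omega hm hy
  have hPer : ∀ p ∈ Omega F, p ∈ Per F := by
    intro p hp
    have h6 : (Per F).Finite := hfin.subset hPO
    rw [h4.1, h6.isClosed.closure_eq] at hp
    exact hp
  have h7 : ∀ p ∈ Omega F, IsSinkSource n F p := fun p hp =>
    sinkSource_of_sphere hr hF hact hcom (hPer p hp) (hsph p (h4.2 p hp))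
  exact ⟨h4, h7, hfin, fun k O hinj hO hcyc =>
    no_cycle F (fun p hp => h7 p (hPO hp)) k O hinj hO hcyc⟩

end

end Pool.Agent.TH80.OMS
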