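import Pool.Agent.TH80.CLX.Defs

/-!
# `Ω`-stability, homogeneous periodic submanifolds of positive dimension: definitions
-/

set_option autoImplicit false

open scoped Manifold ContDiff Topology
open Filter Set Metric

universe u

namespace Pool.Agent.TH80.OMS

open Pool.Agent.H718R2.G Pool.Agent.TH80.CLX

/-- The nonwandering set. -/
def Omega {N : Type u} [TopologicalSpace N] (F : N → N) : Set N :=
  {x | ∀ W : Set N, IsOpen W → x ∈ W → ∃ k : ℕ, 1 ≤ k ∧ ∃ y ∈ W, F^[k] y ∈ W}

/-- `F` and `G` are `Ω`-conjugate: there is a homeomorphism `h : Ω(F) → Ω(G)` with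
`h ∘ F = G ∘ h`. -/
def OmegaConj {N : Type u} [TopologicalSpace N] (F G : N → N) : Prop :=
  ∃ h : Omega F ≃ₜ Omega G, ∀ x y : Omega F, F x = y → G (h x) = h y

/-- `F` is `Ω`-stable in `Diff^r(N)`: all `G` in a neighbourhood of `F` are `Ω`-conjugate to `F`. -/
def OmegaStable (n : ℕ) (N : Type u) [TopologicalSpace N] [ChartedSpace (V n) N] (r : ℕ∞)
    (F : DiffM n N r) : Prop :=
  ∃ U : Set (DiffM n N r), IsOpen[strongTop n N r] U ∧ F ∈ U ∧ ∀ G ∈ U, OmegaConj F G

/-- The orbit `C = G y` of `y` is periodic under `F` with some period `m ≥ 1` (`F^m(C) = C`, and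
`F^i(C)` does not meet `C` for `1 ≤ i < m`), and `F^m` commutes on `C` with the action. -/
def OrbitPeriodic {N G : Type*} (F : N → N) (act : G → N → N) (y : N) : Prop :=
  ∃ m : ℕ, 1 ≤ m ∧ (∃ g, F^[m] y = act g y) ∧ (∀ g, F^[m] (act g y) = act g (F^[m] y)) ∧
    ∀ i, 1 ≤ i → i < m → ∀ g h, F^[i] (act g y) ≠ act h y

/-- `y` lies on a homogeneous periodic submanifold of `F` of positive dimension: some compact Lie
group `G` acts smoothly on an open set `O` which contains `y`, the orbit `C = G y` is infinite and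
periodic, `F^m(C) = C`, and `F^m` commutes on `C` with the action. Nothing is required of `F`
outside of `C, F(C), ..., F^(m-1)(C)`. -/
def IsHomPerInf (n : ℕ) (N : Type u) [TopologicalSpace N] [ChartedSpace (V n) N] (F : N → N)
    (y : N) : Prop :=
  ∃ (G : Type) (_ : Group G) (_ : TopologicalSpace G) (_ : CompactSpace G) (q : ℕ)
    (ι : G →* Matrix (Fin q) (Fin q) ℂ) (O : Set N) (act : G → N → N),
    IsLieAction n N ι O act ∧ y ∈ O ∧ (range fun g => act g y).Infinite ∧ OrbitPeriodic F act y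

end Pool.Agent.TH80.OMS
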