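import Pool.Agent.TH80.OMS.KSDil

/-!
# `Ω`-stable diffeomorphisms and homogeneous periodic submanifolds
-/

set_option autoImplicit false
set_option linter.unusedSectionVars false

open scoped Manifold ContDiff Topology NNReal
open Filter Set Metric

universe u

namespace Pool.Agent.TH80.OMS

open Pool.Agent.H718R2.G Pool.Agent.W564.SC Pool.Agent.TH290.CL Pool.Agent.TH80.CLX

section conj

variable {N : Type u} [TopologicalSpace N]

theorem omega_maps {F : N → N} (hF : Continuous F) {x : N} (hx : x ∈ Omega F) : F x ∈ Omega F := by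
  intro W hW hxW
  obtain ⟨k, hk, y, hy, hyk⟩ := hx (F ⁻¹' W) (hW.preimage hF) hxW
  refine ⟨k, hk, F y, hy, ?_⟩
  have e : F^[k] (F y) = F (F^[k] y) := by
    rw [← Function.iterate_succ_apply, Function.iterate_succ_apply']
  rw [e]
  exact hyk

theorem per_mem_omega {F : N → N} {k : ℕ} (hk : 1 ≤ k) {x : N} (hx : F^[k] x = x) :
    x ∈ Omega F := by
  intro W _ hxW
  exact ⟨k, hk, x, hxW, by rw [hx]; exact hxW⟩

theorem conj_iter {F G : N → N} (hF : Continuous F) (h : Omega F ≃ₜ Omega G)
    (hh : ∀ x y : Omega F, F x = y → G (h x) = h y) (k : ℕ) :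
    ∀ x y : Omega F, F^[k] x = y → G^[k] (h x) = h y := by
  induction k with
  | zero =>
    intro x y hxy
    have : x = y := Subtype.ext hxy
    rw [this]
    rfl
  | succ k ih =>
    intro x y hxy
    rw [Function.iterate_succ_apply] at hxy ⊢
    have h1 : F x ∈ Omega F := omega_maps hF x.2
    rw [hh x ⟨F x, h1⟩ rfl]
    exact ih ⟨F x, h1⟩ y hxy

theorem conj_symm {F G : N → N} (hF : Continuous F) (h : Omega F ≃ₜ Omega G)
    (hh : ∀ x y : Omega F, F x = y → G (h x) = h y) :
    ∀ x y : Omega G, G x = y → F (h.symm x) = h.symm y := by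
  intro x y hxy
  have h1 : F (h.symm x) ∈ Omega F := omega_maps hF (h.symm x).2
  have h2 := hh (h.symm x) ⟨F (h.symm x), h1⟩ rfl
  rw [h.apply_symm_apply, hxy] at h2
  have h3 : h.symm y = ⟨F (h.symm x), h1⟩ := by
    rw [h.symm_apply_eq]
    exact Subtype.ext h2
  rw [h3]

/-- a conjugacy of the nonwandering sets maps the points of period `k` onto the points of
period `k` -/
theorem finite_of_conj {F G : N → N} (hF : Continuous F) (h : Omega F ≃ₜ Omega G)
    (hh : ∀ x y : Omega F, F x = y → G (h x) = h y) {k : ℕ} (hk : 1 ≤ k)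
    (hfin : {x | F^[k] x = x}.Finite) (hG : Continuous G) : {x | G^[k] x = x}.Finite := by
  have h1 : {x | G^[k] x = x} ⊆
      (fun x : Omega F => (h x : N)) '' ((fun x : Omega F => (x : N)) ⁻¹' {x | F^[k] x = x}) := by
    intro x hx
    have hxo : x ∈ Omega G := per_mem_omega hk hx
    refine ⟨h.symm ⟨x, hxo⟩, ?_, ?_⟩
    · have h2 := conj_iter hG h.symm (conj_symm hF h hh) k ⟨x, hxo⟩ ⟨x, hxo⟩ hx
      exact h2
    · show (h (h.symm ⟨x, hxo⟩) : N) = x
      rw [h.apply_symm_apply]
  refine Set.Finite.subset (Set.Finite.image _ ?_) h1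
  exact hfin.preimage Subtype.val_injective.injOn

end conj

variable {n : ℕ} {N : Type u} [TopologicalSpace N] [T2Space N] [CompactSpace N]
  [ChartedSpace (V n) N] [IsManifold (𝓡 n) ∞ N]

/-- near an `Ω`-stable diffeomorphism, there are only finitely many points of each period -/
theorem finite_per {r : ℕ∞} (hr : 1 ≤ r) {F : DiffM n N r} (hF : OmegaStable n N r F) :
    ∃ U : Set (DiffM n N r), IsOpen[strongTop n N r] U ∧ F ∈ U ∧ ∀ G ∈ U, ∀ k : ℕ, 1 ≤ k →
      {x | G^[k] x = x}.Finite := by
  obtain ⟨U, hU, hFU, h⟩ := hF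
  refine ⟨U, hU, hFU, fun G hG k hk => ?_⟩
  obtain ⟨G₀, hG₀, hfin⟩ := ks_finite hr k hk F U hU hFU
  obtain ⟨h₀, hh₀⟩ := h G₀ hG₀
  have h1 : {x | F^[k] x = x}.Finite :=
    finite_of_conj G₀.continuous h₀.symm (conj_symm F.continuous h₀ hh₀) hk hfin F.continuous
  obtain ⟨h₁, hh₁⟩ := h G hG
  exact finite_of_conj F.continuous h₁ hh₁ hk h1 G.continuous

/-- An `Ω`-stable diffeomorphism has a neighbourhood in which no diffeomorphism has a homogeneous
periodic submanifold of positive dimension. -/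
theorem no_homPer {r : ℕ∞} (hr : 1 ≤ r) {F : DiffM n N r} (hF : OmegaStable n N r F) :
    ∃ U : Set (DiffM n N r), IsOpen[strongTop n N r] U ∧ F ∈ U ∧ ∀ G ∈ U, ∀ z : N,
      ¬ IsHomPerInf n N G z := by
  obtain ⟨U, hU, hFU, h⟩ := finite_per hr hF
  refine ⟨U, hU, hFU, fun G hG z hz => ?_⟩
  obtain ⟨H, hH, k, hk, hc⟩ := exists_uncountable r hr G z hz U hU hG
  exact hc (h H hH k hk).countable

theorem homPerInf_of_commute {G : Type} [Group G] [TopologicalSpace G] [CompactSpace G] {q : ℕ}
    {ι : G →* Matrix (Fin q) (Fin q) ℂ} {act : G → N → N} (hact : IsLieAction n N ι univ act)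
    (F : N → N) (hF : ∀ g y, F (act g y) = act g (F y)) (y : N)
    (h : ∃ m : ℕ, 1 ≤ m ∧ ∃ g, F^[m] y = act g y) (hinf : (range fun g => act g y).Infinite) :
    IsHomPerInf n N F y := by
  classical
  have hit : ∀ (i : ℕ) g, F^[i] (act g y) = act g (F^[i] y) := by
    intro i g
    induction i with
    | zero => rfl
    | succ i ih => rw [Function.iterate_succ_apply', ih, hF, Function.iterate_succ_apply' F]
  refine ⟨G, inferInstance, inferInstance, inferInstance, q, ι, univ, act, hact, mem_univ _, hinf,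
    ⟨Nat.find h, (Nat.find_spec h).1, (Nat.find_spec h).2, fun g => hit _ g,
    fun i hi1 hi2 a b hab => ?_⟩⟩
  apply Nat.find_min h hi2
  refine ⟨hi1, a⁻¹ * b, ?_⟩
  rw [hact.mul _ _ _ (mem_univ _), ← hab, hit, ← hact.mul _ _ _ (mem_univ _), inv_mul_cancel,
    hact.one _ (mem_univ _)]

/-- for a connected group, finite orbits are fixed points -/
theorem fixed_of_finite {G : Type} [Group G] [TopologicalSpace G] [CompactSpace G]
    [PreconnectedSpace G] {q : ℕ}
    {ι : G →* Matrix (Fin q) (Fin q) ℂ} {act : G → N → N} (hact : IsLieAction n N ι univ act)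
    (y : N) (hfin : (range fun g => act g y).Finite) (g : G) : act g y = y := by
  have hcont : Continuous (fun g => act g y) := by
    have h1 : Continuous (fun g : G => (g, y)) := by fun_prop
    exact hact.cont.comp_continuous h1 (fun g => ⟨mem_univ _, mem_univ _⟩)
  have h1 : IsPreconnected (range fun g => act g y) := isPreconnected_range hcont
  have h2 : (range fun g => act g y).Subsingleton := by
    by_contra h
    rw [Set.not_subsingleton_iff] at h
    exact (h1.infinite_of_nontrivial h) hfin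
  have h3 : act g y = act 1 y := h2 ⟨g, rfl⟩ ⟨1, rfl⟩
  rw [hact.one y (mem_univ _)] at h3
  exact h3

/-- Relative periodic points of an `Ω`-stable diffeomorphism commuting with a compact connected Lie
group are fixed by the group; this holds also for all nearby diffeomorphisms commuting with it. -/
theorem relper_fixed {r : ℕ∞} (hr : 1 ≤ r) {F : DiffM n N r} (hF : OmegaStable n N r F)
    {G : Type} [Group G] [TopologicalSpace G] [CompactSpace G] [PreconnectedSpace G] {q : ℕ}
    {ι : G →* Matrix (Fin q) (Fin q) ℂ} {act : G → N → N} (hact : IsLieAction n N ι univ act) :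
    ∃ U : Set (DiffM n N r), IsOpen[strongTop n N r] U ∧ F ∈ U ∧ ∀ F' ∈ U,
      (∀ g y, F' (act g y) = act g (F' y)) → ∀ y, (∃ m : ℕ, 1 ≤ m ∧ ∃ g, F'^[m] y = act g y) →
        ∀ g, act g y = y := by
  obtain ⟨U, hU, hFU, h⟩ := no_homPer hr hF
  refine ⟨U, hU, hFU, fun F' hF' hcom y hy g => ?_⟩
  apply fixed_of_finite hact
  by_contra hinf
  exact h F' hF' y (homPerInf_of_commute hact F' hcom y hy hinf)

end Pool.Agent.TH80.OMS
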