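import Pool.Agent.TH80.CLX.Cor
import Pool.Agent.TH80.OMS.Defs

/-!
# Uncountably many periodic points of one period near homogeneous periodic submanifolds
-/

set_option autoImplicit false
set_option linter.unusedSectionVars false

open scoped Manifold ContDiff Topology NNReal
open Filter Set Metric

universe u

namespace Pool.Agent.TH80.OMS

open Pool.Agent.H718R2.G Pool.Agent.W564.SC Pool.Agent.TH290.CL Pool.Agent.TH80.CLX

section top

/-- a countable compact homogeneous Hausdorff space is finite -/
theorem finite_of_homogeneous {X : Type*} [TopologicalSpace X] [CompactSpace X] [T2Space X]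
    [Countable X] (h : ∀ x y : X, ∃ φ : X → X, Continuous φ ∧ φ y = x ∧ ∀ z, φ z = x → z = y) :
    Finite X := by
  rcases isEmpty_or_nonempty X with hX | hX
  · infer_instance
  obtain ⟨i, hi⟩ := nonempty_interior_of_iUnion_of_closed (X := X) (f := fun i : X => {i})
    (fun i => isClosed_singleton) (by ext; simp)
  obtain ⟨w, hw⟩ := hi
  have hwi : w = i := by simpa using interior_subset hw
  rw [hwi] at hw
  have hopen : IsOpen ({i} : Set X) := by
    rw [← interior_eq_iff_isOpen]
    refine Subset.antisymm interior_subset ?_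
    intro z hz
    rw [mem_singleton_iff] at hz
    rw [hz]
    exact hw
  have hd : DiscreteTopology X := by
    rw [discreteTopology_iff_isOpen_singleton]
    intro y
    obtain ⟨φ, hφ, hy, hφ'⟩ := h i y
    have e : ({y} : Set X) = φ ⁻¹' {i} := by
      ext z
      simp only [mem_singleton_iff, mem_preimage]
      constructor
      · rintro rfl
        exact hy
      · exact hφ' z
    rw [e]
    exact hopen.preimage hφ
  exact finite_of_compact_of_discrete

/-- a nonconstant path takes uncountably many values -/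
theorem path_uncountable {N : Type*} [TopologicalSpace N] [T2Space N] [CompactSpace N]
    (γ : ℝ → N) (hγ : Continuous γ) (h : γ 0 ≠ γ 1) : ¬ (γ '' Icc 0 1).Countable := by
  intro hc
  obtain ⟨f, hf0, hf1, -⟩ := exists_continuous_zero_one_of_isClosed (X := N)
    (isClosed_singleton (x := γ 0)) (isClosed_singleton (x := γ 1))
    (by simpa using h)
  have h0 : f (γ 0) = 0 := hf0 rfl
  have h1 : f (γ 1) = 1 := hf1 rfl
  have h2 : Icc (0 : ℝ) 1 ⊆ f '' (γ '' Icc 0 1) := by
    have h3 := intermediate_value_Icc (f := fun t => f (γ t)) zero_le_one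
      ((f.continuous.comp hγ).continuousOn)
    simp only [h0, h1] at h3
    intro t ht
    obtain ⟨s, hs, hst⟩ := h3 ht
    exact ⟨γ s, ⟨s, hs, rfl⟩, hst⟩
  have h4 : (Icc (0 : ℝ) 1).Countable := (hc.image f).mono h2
  have h5 := Cardinal.Real.Icc_countable_iff.1 h4
  norm_num at h5

end top


section core

variable {n : ℕ} {N : Type u} [TopologicalSpace N] [T2Space N] [CompactSpace N]
  [ChartedSpace (V n) N] [IsManifold (𝓡 n) ∞ N]

/-- an infinite orbit is uncountable -/
theorem orbit_uncountable {G : Type} [Group G] [TopologicalSpace G] [CompactSpace G] {q : ℕ}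
    {ι : G →* Matrix (Fin q) (Fin q) ℂ} {O : Set N} {act : G → N → N}
    (hact : IsLieAction n N ι O act) (z : N) (hz : z ∈ O)
    (hinf : (range fun g => act g z).Infinite) : ¬ (range fun g => act g z).Countable := by
  intro hc
  apply hinf
  have hcont : Continuous (fun g => act g z) := by
    have h1 : Continuous (fun g : G => (g, z)) := by fun_prop
    exact (hact.cont.comp_continuous h1 (fun g => ⟨mem_univ _, hz⟩))
  have hcomp : IsCompact (range fun g => act g z) := isCompact_range hcont
  have : CompactSpace (range fun g => act g z) := isCompact_iff_compactSpace.1 hcomp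
  have : Countable (range fun g => act g z) := hc.to_subtype
  have hfin : Finite (range fun g => act g z) := by
    apply finite_of_homogeneous
    rintro ⟨x, a, rfl⟩ ⟨y, b, rfl⟩
    have hO : ∀ w ∈ range fun g => act g z, w ∈ O := by
      rintro w ⟨c, rfl⟩
      exact hact.maps c z hz
    refine ⟨fun w => ⟨act (a * b⁻¹) w.1, ?_⟩, ?_, ?_, ?_⟩
    · obtain ⟨w, c, rfl⟩ := w
      exact ⟨a * b⁻¹ * c, hact.mul _ _ z hz⟩
    · apply Continuous.subtype_mk
      have h1 : Continuous (fun w : range fun g => act g z => (a * b⁻¹, w.1)) := by fun_prop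
      exact hact.cont.comp_continuous h1 (fun w => ⟨mem_univ _, hO _ w.2⟩)
    · apply Subtype.ext
      show act (a * b⁻¹) (act b z) = act a z
      rw [← hact.mul _ _ z hz, inv_mul_cancel_right]
    · rintro ⟨w, c, rfl⟩ h
      apply Subtype.ext
      have h1 : act (a * b⁻¹) (act c z) = act a z := congrArg Subtype.val h
      show act c z = act b z
      have h2 := congrArg (act (b * a⁻¹)) h1
      have e1 : b * a⁻¹ * (a * b⁻¹) = 1 := by group
      rw [← hact.mul _ _ _ (hact.maps c z hz), e1, hact.one _ (hact.maps c z hz),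
        ← hact.mul _ _ z hz, inv_mul_cancel_right] at h2
      exact h2
  exact Set.toFinite _

theorem exists_uncountable (r : ℕ∞) (hr : 1 ≤ r) (F : DiffM n N r) (z : N)
    (h : IsHomPerInf n N F z) (U : Set (DiffM n N r)) (hU : IsOpen[strongTop n N r] U)
    (hFU : F ∈ U) : ∃ H ∈ U, ∃ k : ℕ, 1 ≤ k ∧ ¬ {x | H^[k] x = x}.Countable := by
  classical
  obtain ⟨G, iG, iT, iC, q, ι, O, act, hact, hzO, hinf, m, hm1, ⟨g, hg⟩, hcom, hdis⟩ := h
  obtain ⟨j, c, hcadd, hcs, hcg, hct⟩ := exists_small ι hact.rep_cont hact.rep_inj g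
  have hc0 : c 0 = 1 := by
    have h1 := hcadd 0 0
    rw [add_zero] at h1
    exact (mul_eq_left.1 h1.symm)
  have hinv : ∀ (a : G), ∀ y ∈ O, act a⁻¹ (act a y) = y := by
    intro a y hy
    rw [← hact.mul _ _ y hy, inv_mul_cancel, hact.one y hy]
  have hccomm : ∀ s t, c s * c t = c t * c s := by
    intro s t
    rw [← hcadd, ← hcadd, add_comm]
  have hA : LAct j n N O (fun s y => act (c s) y) :=
    { isOpen := hact.isOpen
      maps := fun s y hy => hact.maps _ y hy
      smooth := hact.smooth j c hcs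
      zero := fun y hy => by
        show act (c 0) y = y
        rw [hc0, hact.one y hy]
      add := fun s t y hy => by
        show act (c (s + t)) y = act (c s) (act (c t) y)
        rw [hcadd, hact.mul _ _ y hy] }
  by_cases hfix : ∀ t, act (c t) z = z
  · -- the orbit consists of periodic points
    obtain ⟨s, -, k, hk, hsk⟩ := hct 1 one_pos
    have hgk : act (g ^ k) z = z := by
      have h1 : Commute (c s) g := hcg s
      rw [h1.mul_pow] at hsk
      have h2 : ∀ l : ℕ, c s ^ l = c ((l : ℝ) • s) := by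
        intro l
        induction l with
        | zero => rw [pow_zero, Nat.cast_zero, zero_smul, hc0]
        | succ l ih =>
          rw [pow_succ, ih, ← hcadd]
          congr 1
          push_cast
          module
      rw [h2] at hsk
      have h3 : g ^ k = (c ((k : ℝ) • s))⁻¹ := eq_inv_of_mul_eq_one_right hsk
      rw [h3]
      conv_lhs => rw [← hfix ((k : ℝ) • s)]
      exact hinv _ z hzO
    have h1 : ∀ (a : G) (l : ℕ), F^[m * l] (act a z) = act (a * g ^ l) z := by
      intro a l
      induction l with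
      | zero => rw [pow_zero, mul_one]; rfl
      | succ l ih =>
        rw [Nat.mul_succ, Nat.add_comm, Function.iterate_add_apply, ih, hcom, hg,
          ← hact.mul _ _ z hzO, pow_succ, mul_assoc]
    refine ⟨F, hFU, m * k, Nat.mul_pos hm1 hk, fun hc => ?_⟩
    apply orbit_uncountable hact z hzO hinf
    refine hc.mono ?_
    rintro x ⟨a, rfl⟩
    show F^[m * k] (act a z) = act a z
    rw [h1, hact.mul _ _ z hzO, hgk]
  push Not at hfix
  obtain ⟨s0, hs0⟩ := hfix
  -- saturations of compact sets
  have hsat : ∀ K : Set N, IsCompact K → K ⊆ O →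
      IsCompact ((fun p : G × N => act p.1 p.2) '' (univ ×ˢ K)) := by
    intro K hK hKO
    exact (isCompact_univ.prod hK).image_of_continuousOn
      (hact.cont.mono (prod_mono_right hKO))
  obtain ⟨C, hC⟩ : ∃ C : Set N, C = (fun p : G × N => act p.1 p.2) '' (univ ×ˢ {z}) := ⟨_, rfl⟩
  have hCc : IsCompact C := by
    rw [hC]
    exact hsat _ isCompact_singleton (singleton_subset_iff.2 hzO)
  have hCmem : ∀ a : G, act a z ∈ C := by
    intro a
    rw [hC]
    exact ⟨(a, z), ⟨mem_univ _, rfl⟩, rfl⟩
  have hCmem' : ∀ y ∈ C, ∃ a : G, act a z = y := by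
    intro y hy
    rw [hC] at hy
    obtain ⟨⟨a, w⟩, ⟨-, hw⟩, ha⟩ := hy
    rw [mem_singleton_iff] at hw
    refine ⟨a, ?_⟩
    rw [← ha]
    show act a z = act a w
    rw [show w = z from hw]
  have hCO : C ⊆ O := by
    intro y hy
    obtain ⟨a, ha⟩ := hCmem' y hy
    rw [← ha]
    exact hact.maps a z hzO
  obtain ⟨C0, hC0⟩ : ∃ C0 : Set N, C0 = ⋃ i ∈ Finset.Ico 1 m, F^[i] '' C := ⟨_, rfl⟩
  have hFc : ∀ i : ℕ, Continuous (F^[i]) := fun i => F.continuous.iterate i
  have hC0c : IsClosed C0 := by
    rw [hC0]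
    exact isClosed_biUnion_finset fun i _ => (hCc.image (hFc i)).isClosed
  have hdisj0 : Disjoint C0 C := by
    rw [Set.disjoint_left]
    intro y hy1 hy2
    rw [hC0] at hy1
    simp only [mem_iUnion, Finset.mem_Ico] at hy1
    obtain ⟨i, ⟨hi1, hi2⟩, w, hw, hwy⟩ := hy1
    obtain ⟨a, ha⟩ := hCmem' w hw
    obtain ⟨b, hb⟩ := hCmem' y hy2
    apply hdis i hi1 hi2 a b
    rw [ha, hwy, hb]
  -- a compact neighbourhood of the orbit
  obtain ⟨O₁, hO₁, hCO₁, hO₁O, hO₁c⟩ := exists_open_between_and_isCompact_closure hCc hact.isOpen hCO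
  have hD : IsClosed (C0 ∪ O₁ᶜ) := hC0c.union hO₁.isClosed_compl
  have hdisj : Disjoint (C0 ∪ O₁ᶜ) C := by
    rw [Set.disjoint_union_left]
    exact ⟨hdisj0, Set.disjoint_left.2 fun y hy hyC => hy (hCO₁ hyC)⟩
  obtain ⟨f, hf0, hf1, -⟩ := exists_contMDiffMap_zero_one_of_isClosed (n := ⊤) (𝓡 n) hD
    hCc.isClosed hdisj
  have hρ : ContMDiff (𝓡 n) 𝓘(ℝ, ℝ) ∞ (f : N → ℝ) := f.contMDiff
  obtain ⟨K, hKdef⟩ : ∃ K : Set N, K = (fun p : G × N => act p.1 p.2) '' (univ ×ˢ closure O₁) :=
    ⟨_, rfl⟩
  have hKc : IsCompact K := by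
    rw [hKdef]
    exact hsat _ hO₁c hO₁O
  have hKO : K ⊆ O := by
    rw [hKdef]
    rintro y ⟨⟨a, w⟩, ⟨-, hw⟩, ha⟩
    rw [← ha]
    exact hact.maps a w (hO₁O hw)
  have hρ0 : ∀ y ∈ O, y ∉ K → ∀ s, f (act (c s) y) = 0 := by
    intro y hy hyK s
    apply hf0
    right
    intro h1
    apply hyK
    rw [hKdef]
    exact ⟨((c s)⁻¹, act (c s) y), ⟨mem_univ _, subset_closure h1⟩, hinv _ y hy⟩
  -- the family
  obtain ⟨H, κ, hκ, hH0, hfam, hH⟩ := lact_fam hA hρ K hKc hKc.isClosed hKO hρ0 r F
  obtain ⟨κ', hκ', hmem⟩ := fam_mem r hr H hfam z U hU (by rw [hH0]; exact hFU)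
  obtain ⟨s, hs, k, hk, hsk⟩ := hct (min κ κ') (lt_min hκ hκ')
  refine ⟨H s, hmem s (hs.trans_le (min_le_right _ _)), m * k, Nat.mul_pos hm1 hk, ?_⟩
  have hHs := hH s (hs.trans_le (min_le_left _ _))
  -- the orbit of a point of the first orbit
  have h1 : ∀ (a : G) (i : ℕ), 1 ≤ i → i ≤ m → (H s)^[i] (act a z) = F^[i] (act (c s * a) z) := by
    intro a i hi
    induction i with
    | zero => omega
    | succ i ih =>
      intro him
      rcases Nat.eq_zero_or_pos i with h0 | h0
      · subst h0
        have h2 : f (act a z) = 1 := hf1 (hCmem a)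
        show H s (act a z) = F (act (c s * a) z)
        rw [hHs, if_pos (hCO (hCmem a)), h2, one_smul]
        show F (act (c s) (act a z)) = _
        rw [← hact.mul _ _ z hzO]
      · rw [Function.iterate_succ_apply', ih h0 (by omega), hHs,
          Function.iterate_succ_apply' F]
        have h2 : f (F^[i] (act (c s * a) z)) = 0 := hf0 (by
          left
          rw [hC0]
          simp only [mem_iUnion, Finset.mem_Ico]
          exact ⟨i, ⟨h0, by omega⟩, _, hCmem _, rfl⟩)
        congr 1
        by_cases hO : F^[i] (act (c s * a) z) ∈ O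
        · rw [if_pos hO, h2, zero_smul]
          show act (c 0) _ = _
          rw [hc0, hact.one _ hO]
        · rw [if_neg hO]
  have h2 : ∀ a : G, (H s)^[m] (act a z) = act (c s * a * g) z := by
    intro a
    rw [h1 a m hm1 le_rfl, hcom, hg, ← hact.mul _ _ z hzO]
  have h3 : ∀ (t : V j) (l : ℕ), (H s)^[m * l] (act (c t) z) = act (c t * (c s * g) ^ l) z := by
    intro t l
    induction l with
    | zero =>
      rw [pow_zero, mul_one]
      rfl
    | succ l ih =>
      rw [Nat.mul_succ, Nat.add_comm, Function.iterate_add_apply, ih, h2]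
      congr 1
      have h4 : Commute g (c s * g) := by
        show g * (c s * g) = (c s * g) * g
        rw [← mul_assoc, ← hcg]
      have h5 : c s * (c t * (c s * g) ^ l) * g = c t * (c s * ((c s * g) ^ l * g)) := by
        rw [← mul_assoc, ← mul_assoc, hccomm s t]
        group
      rw [h5, (h4.pow_right l).symm.eq, pow_succ', ← mul_assoc (c s) g]
  have h6 : ∀ t, (H s)^[m * k] (act (c t) z) = act (c t) z := by
    intro t
    rw [h3, hsk, mul_one]
  intro hcount
  have hγ : Continuous (fun τ : ℝ => act (c (τ • s0)) z) := by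
    have e1 : Continuous (fun τ : ℝ => ((τ • s0, z) : V j × N)) := by fun_prop
    exact hA.smooth.continuousOn.comp_continuous e1 (fun τ => ⟨mem_univ _, hzO⟩)
  refine path_uncountable (fun τ : ℝ => act (c (τ • s0)) z) hγ ?_ (hcount.mono ?_)
  · simp only [zero_smul, one_smul, hc0, hact.one z hzO]
    exact hs0.symm
  · rintro x ⟨τ, -, rfl⟩
    exact h6 _

end core

end Pool.Agent.TH80.OMS
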