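import Pool.Agent.TH80.OMS.StructDefs
import Pool.Agent.TH80.OMS.Main

/-!
# Structurally stable diffeomorphisms are `Ω`-stable
-/

set_option autoImplicit false
set_option linter.unusedSectionVars false

open scoped Manifold ContDiff Topology
open Set

universe u

namespace Pool.Agent.TH80.OMS

open Pool.Agent.H718R2.G Pool.Agent.TH80.CLX

theorem omega_conj {N : Type u} [TopologicalSpace N] {F G : N → N} (h : N ≃ₜ N)
    (hh : ∀ x, h (F x) = G (h x)) {x : N} (hx : x ∈ Omega F) : h x ∈ Omega G := by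
  have hit : ∀ k y, h (F^[k] y) = G^[k] (h y) := by
    intro k y
    induction k with
    | zero => rfl
    | succ k ih => rw [Function.iterate_succ_apply', hh, ih, Function.iterate_succ_apply' G]
  intro W hW hxW
  obtain ⟨k, hk, y, hy, hyk⟩ := hx (h ⁻¹' W) (hW.preimage h.continuous) hxW
  exact ⟨k, hk, h y, hy, by rw [← hit]; exact hyk⟩

theorem omegaStable_of_structStable {n : ℕ} {N : Type u} [TopologicalSpace N]
    [ChartedSpace (V n) N] {r : ℕ∞} {F : DiffM n N r} (h : StructStable n N r F) :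
    OmegaStable n N r F := by
  obtain ⟨U, hU, hFU, hc⟩ := h
  refine ⟨U, hU, hFU, fun G hG => ?_⟩
  obtain ⟨h, hh⟩ := hc G hG
  have hh' : ∀ x, h.symm (G x) = F (h.symm x) := by
    intro x
    rw [h.symm_apply_eq, hh, h.apply_symm_apply]
  refine ⟨⟨⟨fun x => ⟨h x, omega_conj h hh x.2⟩, fun x => ⟨h.symm x, omega_conj h.symm hh' x.2⟩,
    fun x => Subtype.ext (h.symm_apply_apply _), fun x => Subtype.ext (h.apply_symm_apply _)⟩,
    by fun_prop, by fun_prop⟩, fun x y hxy => ?_⟩
  show G (h x) = h y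
  rw [← hh, hxy]

/-- A structurally stable or `Ω`-stable diffeomorphism has a neighbourhood in which no diffeomorphism
has a homogeneous periodic submanifold of positive dimension. -/
theorem struct_no_homPer {n : ℕ} {N : Type u} [TopologicalSpace N] [T2Space N] [CompactSpace N]
    [ChartedSpace (V n) N] [IsManifold (𝓡 n) ∞ N] {r : ℕ∞} (hr : 1 ≤ r) {F : DiffM n N r}
    (hF : StructStable n N r F ∨ OmegaStable n N r F) :
    ∃ U : Set (DiffM n N r), IsOpen[strongTop n N r] U ∧ F ∈ U ∧ ∀ G ∈ U,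
      (∀ k : ℕ, 1 ≤ k → {x | G^[k] x = x}.Finite) ∧ ∀ z : N, ¬ IsHomPerInf n N G z := by
  have hF' : OmegaStable n N r F := hF.elim omegaStable_of_structStable id
  obtain ⟨U, hU, hFU, h⟩ := no_homPer hr hF'
  obtain ⟨U', hU', hFU', h'⟩ := finite_per hr hF'
  exact ⟨U ∩ U', @IsOpen.inter _ (strongTop n N r) _ _ hU hU', ⟨hFU, hFU'⟩,
    fun G hG => ⟨h' G hG.2, h G hG.1⟩⟩

end Pool.Agent.TH80.OMS
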