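import Pool.Agent.TH80.OMS.Defs

/-!
# Structural stability: definition
-/

set_option autoImplicit false

open scoped Manifold ContDiff Topology

universe u

namespace Pool.Agent.TH80.OMS

open Pool.Agent.H718R2.G

/-- `F` is structurally stable in `Diff^r(N)`: for all `G` in a neighbourhood of `F` there is a
homeomorphism `h` of `N` with `h ∘ F = G ∘ h`. -/
def StructStable (n : ℕ) (N : Type u) [TopologicalSpace N] [ChartedSpace (V n) N] (r : ℕ∞)
    (F : DiffM n N r) : Prop :=
  ∃ U : Set (DiffM n N r), IsOpen[strongTop n N r] U ∧ F ∈ U ∧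
    ∀ G ∈ U, ∃ h : N ≃ₜ N, ∀ x, h (F x) = G (h x)

end Pool.Agent.TH80.OMS
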