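import Pool.Agent.TH80.OMS.Main
import Pool.Agent.TH80.OMS.SymDefs

/-!
# Symmetric `Ω`-stable diffeomorphisms: points fixed by the group are sources or sinks
-/

set_option autoImplicit false
set_option linter.unusedSectionVars false

open scoped Manifold ContDiff Topology NNReal
open Filter Set Metric

universe u

namespace Pool.Agent.TH80.OMS

open Pool.Agent.H718R2.G Pool.Agent.W564.SC Pool.Agent.TH290.CL Pool.Agent.TH80.CLX

section

variable {n : ℕ} {N : Type u} [TopologicalSpace N] [ChartedSpace (V n) N] [IsManifold (𝓡 n) ∞ N]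

theorem small_lin {G : Type} {act : G → N → N} {p : N} {χ : OpenPartialHomeomorph N (V n)}
    {R : G → V n →ₗᵢ[ℝ] V n} (h : LinChart n act p χ R) (O : Set N) (hO : IsOpen O)
    (hp : p ∈ O) : ∃ χ' : OpenPartialHomeomorph N (V n), LinChart n act p χ' R ∧
      GoodChart n N χ' p ∧ χ'.source ⊆ O := by
  have h0 : (0 : V n) ∈ χ.target := by rw [← h.zero]; exact χ.map_source h.src
  have hs0 : χ.symm 0 = p := by rw [← h.zero, χ.left_inv h.src]
  have hnb : χ.target ∩ χ.symm ⁻¹' O ∈ 𝓝 (0 : V n) := by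
    refine inter_mem (χ.open_target.mem_nhds h0) ((χ.continuousAt_symm h0).preimage_mem_nhds ?_)
    rw [hs0]
    exact hO.mem_nhds hp
  obtain ⟨ρ, hρ, hball⟩ := Metric.mem_nhds_iff.1 hnb
  obtain ⟨ε, hεd⟩ : ∃ ε : ℝ, ε = ρ / 2 := ⟨_, rfl⟩
  have hε : 0 < ε := by rw [hεd]; linarith
  set s : Set N := χ.source ∩ χ ⁻¹' ball (0 : V n) ρ with hs
  have hso : IsOpen s := χ.isOpen_inter_preimage isOpen_ball
  set φ : OpenPartialHomeomorph N (V n) := χ.restr s with hφ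
  have hφs : φ.source = s := by
    rw [hφ, OpenPartialHomeomorph.restr_source, hso.interior_eq, hs]
    ext y
    simp
  have hm : φ ∈ IsManifold.maximalAtlas (𝓡 n) ∞ N := restr_mem_maximalAtlas _ h.mem hso
  have hφt : ∀ w : V n, ‖w‖ < ρ → w ∈ φ.target := by
    intro w hw
    have hwt : w ∈ χ.target := (hball (by rwa [mem_ball, dist_zero_right])).1
    have h1 : χ.symm w ∈ φ.source := by
      rw [hφs]
      refine ⟨χ.map_target hwt, ?_⟩
      show χ (χ.symm w) ∈ ball (0 : V n) ρ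
      rw [χ.right_inv hwt, mem_ball, dist_zero_right]
      exact hw
    have h2 := φ.map_source h1
    have h3 : φ (χ.symm w) = w := χ.right_inv hwt
    rwa [h3] at h2
  have h1 : ContDiff ℝ ∞ (fun v : V n => ε⁻¹ • (v - 0)) := by fun_prop
  have h2 : ContDiff ℝ ∞ (fun w : V n => ε • w + (0 : V n)) := by fun_prop
  have hmem : φ.transHomeomorph (Pool.Agent.W699.SC.hom 0 ε hε.ne') ∈
      IsManifold.maximalAtlas (𝓡 n) ∞ N := by
    apply OpenPartialHomeomorph.mem_maximalAtlas_of_contMDiffOn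
    · have : ContMDiffOn (𝓡 n) (𝓡 n) ∞ ((fun v : V n => ε⁻¹ • (v - 0)) ∘ φ) φ.source :=
        h1.contMDiff.comp_contMDiffOn (contMDiffOn_of_mem_maximalAtlas hm)
      exact this
    · have : ContMDiffOn (𝓡 n) (𝓡 n) ∞ (φ.symm ∘ (fun w : V n => ε • w + 0))
          ((fun w : V n => ε • w + 0) ⁻¹' φ.target) :=
        (contMDiffOn_symm_of_mem_maximalAtlas hm).comp h2.contMDiff.contMDiffOn (fun w hw => hw)
      exact this
  have hval : ∀ y, (φ.transHomeomorph (Pool.Agent.W699.SC.hom 0 ε hε.ne')) y =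
      ε⁻¹ • (χ y - 0) := fun y => rfl
  have hsrc : (φ.transHomeomorph (Pool.Agent.W699.SC.hom 0 ε hε.ne')).source = s := hφs
  have hps : p ∈ s := ⟨h.src, by
    show χ p ∈ ball (0 : V n) ρ
    rw [h.zero]
    exact mem_ball_self hρ⟩
  refine ⟨φ.transHomeomorph (Pool.Agent.W699.SC.hom 0 ε hε.ne'), ⟨hmem, ?_, ?_, ?_, ?_⟩,
    ⟨hmem, ?_, ?_, ?_⟩, ?_⟩
  · rw [hsrc]
    exact hps
  · rw [hval, h.zero, sub_self, smul_zero]
  · intro g y hy
    rw [hsrc] at hy ⊢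
    refine ⟨h.inv g y hy.1, ?_⟩
    have h3 : χ y ∈ ball (0 : V n) ρ := hy.2
    show χ (act g y) ∈ ball (0 : V n) ρ
    rw [h.lin g y hy.1, mem_ball, dist_zero_right, LinearIsometry.norm_map]
    rwa [mem_ball, dist_zero_right] at h3
  · intro g y hy
    rw [hsrc] at hy
    rw [hval, hval, h.lin g y hy.1, sub_zero, sub_zero, map_smul]
  · rw [hsrc]
    exact hps
  · rw [hval, h.zero, sub_self, smul_zero]
  · intro w hw
    change ε • w + 0 ∈ φ.target
    apply hφt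
    rw [add_zero, norm_smul, Real.norm_eq_abs, abs_of_pos hε]
    rw [mem_closedBall, dist_zero_right] at hw
    nlinarith
  · rw [hsrc]
    intro y hy
    have h3 := (hball hy.2).2
    show y ∈ O
    have h4 : χ.symm (χ y) ∈ O := h3
    rwa [χ.left_inv hy.1] at h4

variable [T2Space N] [CompactSpace N]

theorem block {r : ℕ∞} (hr : 1 ≤ r) {F : DiffM n N r} (hF : OmegaStable n N r F)
    {G : Type} [Group G] [TopologicalSpace G] [CompactSpace G] [PreconnectedSpace G] {q : ℕ}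
    {ι : G →* Matrix (Fin q) (Fin q) ℂ} {act : G → N → N} (hact : IsLieAction n N ι univ act)
    (hcom : ∀ g y, F (act g y) = act g (F y)) {p : N} {m : ℕ} (hmpos : 0 < m)
    (hmp : F^[m] p = p) {χ : OpenPartialHomeomorph N (V n)}
    {R : G → V n →ₗᵢ[ℝ] V n} (hχ : LinChart n act p χ R) (hg : GoodChart n N χ p)
    (hχO : χ.source ⊆ ((fun i => F^[i] p) '' Ioo 0 m)ᶜ) (E : Submodule ℝ (V n))
    (hE : Spherical R E) : ∃ c : ℝ, c ≠ 1 ∧ ∀ w ∈ E,
      fderiv ℝ (fun u => χ (F^[m] (χ.symm u))) 0 w ∈ E ∧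
      ‖fderiv ℝ (fun u => χ (F^[m] (χ.symm u))) 0 w‖ = c * ‖w‖ := by
  have hcomi : ∀ i g y, F^[i] (act g y) = act g (F^[i] y) := by
    intro i g y
    induction i with
    | zero => rfl
    | succ i ih => rw [Function.iterate_succ_apply', ih, hcom, Function.iterate_succ_apply' F]
  have hAs : closedBall (0 : V n) (1 / 2) ⊆ χ.target :=
    (closedBall_subset_closedBall (by norm_num)).trans hg.ball
  set A := χ.symm '' closedBall (0 : V n) (1 / 2) with hA
  have hAc : IsClosed A := ((isCompact_closedBall _ _).image_of_continuousOn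
    (χ.continuousOn_symm.mono hAs)).isClosed
  have hAsrc : A ⊆ χ.source := by
    rintro y ⟨u, hu, rfl⟩
    exact χ.map_target (hAs hu)
  have h0t : (0 : V n) ∈ χ.target := hAs (by simp)
  have hs0 : χ.symm 0 = p := by rw [← hχ.zero, χ.left_inv hχ.src]
  set gm : V n → V n := fun u => χ (F^[m] (χ.symm u)) with hgm
  have hgd : DifferentiableAt ℝ gm 0 :=
    chart_diff hr F m hχ.mem h0t (by rw [hs0, hmp]; exact hχ.src)
  set D : V n →L[ℝ] V n := fderiv ℝ gm 0 with hD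
  have hgD : HasFDerivAt gm D 0 := hgd.hasFDerivAt
  have hg0 : gm 0 = 0 := by
    show χ (F^[m] (χ.symm 0)) = 0
    rw [hs0, hmp, hχ.zero]
  -- points near zero
  have hsymm : Tendsto χ.symm (𝓝 (0 : V n)) (𝓝 p) := by
    have := χ.continuousAt_symm h0t
    rwa [ContinuousAt, hs0] at this
  have hFm : ∀ᶠ y in 𝓝 p, F^[m] y ∈ χ.source := by
    apply (F.continuous.iterate m).continuousAt.eventually
    show χ.source ∈ 𝓝 (F^[m] p)
    rw [hmp]
    exact χ.open_source.mem_nhds hχ.src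
  have hact_symm : ∀ a, ∀ u ∈ χ.target, R a u ∈ χ.target ∧ χ.symm (R a u) = act a (χ.symm u) := by
    intro a u hu
    have h1 := hχ.lin a (χ.symm u) (χ.map_target hu)
    rw [χ.right_inv hu] at h1
    have h2 := hχ.inv a (χ.symm u) (χ.map_target hu)
    rw [← h1]
    exact ⟨χ.map_source h2, χ.left_inv h2⟩
  have hDR : ∀ a w, D (R a w) = R a (D w) := by
    intro a w
    have h1 : HasFDerivAt (fun u => gm (R a u)) (D.comp (R a).toContinuousLinearMap) 0 := by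
      have h2 : HasFDerivAt gm D ((R a).toContinuousLinearMap (0 : V n)) := by
        rw [map_zero]
        exact hgD
      exact h2.comp (0 : V n) (R a).toContinuousLinearMap.hasFDerivAt
    have h3 : HasFDerivAt (fun u => R a (gm u)) ((R a).toContinuousLinearMap.comp D) 0 :=
      (R a).toContinuousLinearMap.hasFDerivAt.comp (0 : V n) hgD
    have h4 : (fun u => gm (R a u)) =ᶠ[𝓝 0] (fun u => R a (gm u)) := by
      filter_upwards [χ.open_target.mem_nhds h0t, hsymm.eventually hFm] with u hu1 hu2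
      show χ (F^[m] (χ.symm (R a u))) = R a (χ (F^[m] (χ.symm u)))
      rw [(hact_symm a u hu1).2, hcomi, hχ.lin a _ hu2]
    have h5 := (h3.congr_of_eventuallyEq h4).unique h1
    have h6 := congrArg (fun L : V n →L[ℝ] V n => L w) h5
    exact h6.symm
  obtain ⟨S, hS⟩ := hE.fix
  have hDE : ∀ w ∈ E, D w ∈ E := by
    intro w hw
    rw [hS]
    intro a ha
    rw [← hDR, (hS w).1 hw a ha]
  by_cases hE0 : ∀ w ∈ E, w = 0
  · refine ⟨2, by norm_num, fun w hw => ⟨hDE w hw, ?_⟩⟩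
    rw [hE0 w hw, map_zero, norm_zero, mul_zero]
  push Not at hE0
  obtain ⟨w₀, hw₀, hw₀0⟩ := hE0
  obtain ⟨e, heE, he⟩ : ∃ e ∈ E, ‖e‖ = 1 :=
    ⟨‖w₀‖⁻¹ • w₀, E.smul_mem _ hw₀, by
      rw [norm_smul, norm_inv, norm_norm, inv_mul_cancel₀ (norm_ne_zero_iff.2 hw₀0)]⟩
  have hnorm : ∀ w ∈ E, ‖D w‖ = ‖D e‖ * ‖w‖ := by
    intro w hw
    obtain ⟨a, ha⟩ := hE.trans (‖w‖ • e) (E.smul_mem _ heE) w hw
      (by rw [norm_smul, he, mul_one, norm_norm])
    rw [← ha, hDR, LinearIsometry.norm_map, LinearIsometry.norm_map, map_smul, norm_smul,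
      norm_smul, norm_norm, he, mul_one, mul_comm]
  by_cases hc : ‖D e‖ = 1
  swap
  · exact ⟨‖D e‖, hc, fun w hw => ⟨hDE w hw, hnorm w hw⟩⟩
  exfalso
  -- the perturbation
  obtain ⟨Fd, Fd', κ, hκ, hκ2, hFd, hdil, hrad⟩ := dil_family n
  obtain ⟨Ψ, H, hfam, hH0, hH, hΨ0, hΨc, hΨi, hΨs, hΨo⟩ := push_family r F hg hFd
  obtain ⟨U, hU, hFU, hrel⟩ := relper_fixed hr hF hact
  obtain ⟨κ', hκ', hmemU⟩ := fam_mem r hr H hfam p U hU (by rw [hH0]; exact hFU)
  have hΨG : ∀ s a y, Ψ s (act a y) = act a (Ψ s y) := by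
    intro s a y
    by_cases hy : y ∈ χ.source
    · obtain ⟨h1, h2⟩ := hΨs s y hy
      obtain ⟨h3, h4⟩ := hΨs s (act a y) (hχ.inv a y hy)
      apply χ.injOn h3 (hχ.inv a _ h1)
      obtain ⟨f, hf, hf'⟩ := hrad s
      rw [h4, hχ.lin a y hy, hχ.lin a _ h1, h2, hf', hf', map_smul,
        hf (R a (χ y)) (χ y) (LinearIsometry.norm_map _ _)]
    · have h1 : act a y ∉ χ.source := by
        intro h
        apply hy
        have h2 := hχ.inv a⁻¹ _ h
        rwa [← hact.mul _ _ _ (mem_univ _), inv_mul_cancel, hact.one _ (mem_univ _)] at h2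
      rw [hΨo s y (fun h => hy (hAsrc h)), hΨo s _ (fun h => h1 (hAsrc h))]
  have hHG : ∀ s a y, H s (act a y) = act a (H s y) := by
    intro s a y
    rw [hH, hH, hΨG, hcom]
  obtain ⟨δ, hδd⟩ : ∃ δ : ℝ, δ = min κ κ' / 2 := ⟨_, rfl⟩
  have hδ0 : 0 < δ := by
    rw [hδd]
    have := lt_min hκ hκ'
    linarith
  have hδκ : δ < κ := by
    have := min_le_left κ κ'
    rw [hδd]
    linarith
  have hδκ' : δ < κ' := by
    have := min_le_right κ κ'
    rw [hδd]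
    linarith
  have hδ1 : δ < 1 / 2 := by linarith
  have hev : ∀ᶠ u in 𝓝 (0 : V n), (‖gm u - D u‖ ≤ δ / 4 * ‖u‖ ∧ u ∈ χ.target) ∧
      F^[m] (χ.symm u) ∈ χ.source ∧ ∀ i ∈ Ioo 0 m, F^[i] (χ.symm u) ∉ A := by
    have h1 : ∀ᶠ u in 𝓝 (0 : V n), ‖gm u - D u‖ ≤ δ / 4 * ‖u‖ := by
      have h2 := (hasFDerivAt_iff_isLittleO_nhds_zero.1 hgD).def (show 0 < δ / 4 by linarith)
      filter_upwards [h2] with u hu
      rw [zero_add, hg0, sub_zero] at hu
      exact hu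
    have h3 : ∀ᶠ y in 𝓝 p, ∀ i ∈ Ioo 0 m, F^[i] y ∉ A := by
      rw [Filter.eventually_all_finite (finite_Ioo 0 m)]
      intro i hi
      apply (F.continuous.iterate i).continuousAt.eventually (p := fun z => z ∉ A)
      apply hAc.isOpen_compl.mem_nhds
      intro h
      exact hχO (hAsrc h) ⟨i, hi, rfl⟩
    exact (h1.and (χ.open_target.mem_nhds h0t)).and
      ((hsymm.eventually hFm).and (hsymm.eventually h3))
  obtain ⟨ρ, hρ, hρb⟩ := Metric.eventually_nhds_iff.1 hev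
  obtain ⟨ρ', hρ'd⟩ : ∃ ρ' : ℝ, ρ' = min ρ (1 / 4) / 4 := ⟨_, rfl⟩
  have hρ'0 : 0 < ρ' := by
    rw [hρ'd]
    have := lt_min hρ (show (0 : ℝ) < 1 / 4 by norm_num)
    linarith
  have hρ'ρ : 4 * ρ' ≤ ρ := by
    rw [hρ'd]
    have := min_le_left ρ (1 / 4)
    linarith
  have hρ'4 : 4 * ρ' ≤ 1 / 4 := by
    rw [hρ'd]
    have := min_le_right ρ (1 / 4)
    linarith
  obtain ⟨u, hu⟩ : ∃ u : V n, u = ρ' • e := ⟨_, rfl⟩
  have hun : ‖u‖ = ρ' := by
    rw [hu, norm_smul, he, mul_one, Real.norm_eq_abs, abs_of_pos hρ'0]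
  have hτ : ∀ τ ∈ Icc (-δ) δ, ‖(1 + τ) • u‖ = (1 + τ) * ρ' ∧ dist ((1 + τ) • u) 0 < ρ := by
    intro τ hτ
    have h1 : 0 < 1 + τ := by linarith [hτ.1]
    have h2 : ‖(1 + τ) • u‖ = (1 + τ) * ρ' := by
      rw [norm_smul, hun, Real.norm_eq_abs, abs_of_pos h1]
    refine ⟨h2, ?_⟩
    rw [dist_zero_right, h2]
    have h3 : 1 + τ ≤ 2 := by linarith [hτ.2]
    nlinarith
  have huE : u ∈ E := by
    rw [hu]
    exact E.smul_mem _ heE
  have hcont : ContinuousOn (fun τ : ℝ => ‖gm ((1 + τ) • u)‖) (Icc (-δ) δ) := by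
    intro τ hτ'
    obtain ⟨h1, h2⟩ := hτ τ hτ'
    obtain ⟨⟨-, h3⟩, h4, -⟩ := hρb h2
    have h5 : ContinuousAt gm ((1 + τ) • u) := (chart_diff hr F m hχ.mem h3 h4).continuousAt
    have h6 : ContinuousAt (fun τ : ℝ => (1 + τ) • u) τ := by fun_prop
    exact (ContinuousAt.comp (f := fun τ : ℝ => (1 + τ) • u) (g := fun v => ‖gm v‖)
      h5.norm h6).continuousWithinAt
  have hle : -δ ≤ δ := by linarith
  have hest : ∀ τ ∈ Icc (-δ) δ, |‖gm ((1 + τ) • u)‖ - (1 + τ) * ρ'| ≤ δ / 4 * ((1 + τ) * ρ') := by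
    intro τ hτ'
    obtain ⟨h1, h2⟩ := hτ τ hτ'
    obtain ⟨⟨h3, -⟩, -⟩ := hρb h2
    have h4 : ‖D ((1 + τ) • u)‖ = (1 + τ) * ρ' := by
      rw [hnorm _ (E.smul_mem _ huE), hc, one_mul, h1]
    have h5 := abs_norm_sub_norm_le (gm ((1 + τ) • u)) (D ((1 + τ) • u))
    rw [h4] at h5
    rw [h1] at h3
    exact h5.trans h3
  have hlow : ‖gm ((1 + -δ) • u)‖ ≤ ρ' := by
    have h1 := (abs_le.1 (hest (-δ) ⟨le_rfl, hle⟩)).2
    have h2 : ‖gm ((1 + -δ) • u)‖ ≤ (1 + -δ) * ρ' + δ / 4 * ((1 + -δ) * ρ') := by linarith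
    refine h2.trans ?_
    nlinarith [mul_pos hδ0 hρ'0, mul_pos (mul_pos hδ0 hδ0) hρ'0]
  have hhigh : ρ' ≤ ‖gm ((1 + δ) • u)‖ := by
    have h1 := (abs_le.1 (hest δ ⟨hle, le_rfl⟩)).1
    have h2 : (1 + δ) * ρ' - δ / 4 * ((1 + δ) * ρ') ≤ ‖gm ((1 + δ) • u)‖ := by linarith
    refine le_trans ?_ h2
    nlinarith [mul_pos hδ0 hρ'0, mul_pos (mul_pos hδ0 hδ0) hρ'0]
  obtain ⟨τ, hτm, hτe⟩ := intermediate_value_Icc hle hcont (show ρ' ∈ Icc _ _ from ⟨hlow, hhigh⟩)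
  have hτe' : ‖gm ((1 + τ) • u)‖ = ρ' := hτe
  obtain ⟨s, hs⟩ : ∃ s : V 1, s = EuclideanSpace.single (0 : Fin 1) τ := ⟨_, rfl⟩
  have hs0' : s 0 = τ := by
    rw [hs]
    simp
  have hsn : ‖s‖ ≤ δ := by
    rw [hs, EuclideanSpace.norm_single, Real.norm_eq_abs, abs_le]
    exact hτm
  have hut : u ∈ χ.target := by
    apply hAs
    rw [mem_closedBall, dist_zero_right, hun]
    linarith
  have hΨu : Ψ s (χ.symm u) = χ.symm ((1 + τ) • u) := by
    obtain ⟨h1, h2⟩ := hΨs s (χ.symm u) (χ.map_target hut)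
    rw [χ.right_inv hut, hdil s u (lt_of_le_of_lt hsn hδκ) (by rw [hun]; linarith), hs0'] at h2
    rw [← h2, χ.left_inv h1]
  obtain ⟨⟨-, hgood0⟩, hgood1, hgood2⟩ := hρb (hτ τ hτm).2
  have hit : ∀ i, 1 ≤ i → i ≤ m → (H s)^[i] (χ.symm u) = F^[i] (χ.symm ((1 + τ) • u)) := by
    intro i hi
    induction i with
    | zero => omega
    | succ i ih =>
      intro him
      rcases Nat.eq_zero_or_pos i with h0 | h0
      · subst h0
        show H s (χ.symm u) = F (χ.symm ((1 + τ) • u))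
        rw [hH, hΨu]
      · rw [Function.iterate_succ_apply', ih h0 (by omega), hH, Function.iterate_succ_apply' F,
          hΨo s _ (hgood2 i ⟨h0, by omega⟩)]
  have hHm := hit m hmpos le_rfl
  have hgE : gm ((1 + τ) • u) ∈ E := by
    rw [hS]
    intro a ha
    have h1 := hact_symm a _ hgood0
    have h2 : R a ((1 + τ) • u) = (1 + τ) • u := (hS _).1 (E.smul_mem _ huE) a ha
    have h3 : χ.symm ((1 + τ) • u) = act a (χ.symm ((1 + τ) • u)) := by
      rw [← h1.2, h2]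
    show R a (χ (F^[m] (χ.symm ((1 + τ) • u)))) = χ (F^[m] (χ.symm ((1 + τ) • u)))
    conv_rhs => rw [h3]
    rw [hcomi, hχ.lin a _ hgood1]
  obtain ⟨a, ha⟩ := hE.trans u huE (gm ((1 + τ) • u)) hgE (by rw [hun, hτe'])
  have hrelp : (H s)^[m] (χ.symm u) = act a (χ.symm u) := by
    rw [hHm, ← (hact_symm a u hut).2, ha]
    exact (χ.left_inv hgood1).symm
  have hfix := hrel (H s) (hmemU s (lt_of_le_of_lt hsn hδκ')) (hHG s) (χ.symm u)
    ⟨m, hmpos, a, hrelp⟩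
  obtain ⟨b, hb⟩ := hE.trans u huE (-u) (E.neg_mem huE) (by rw [norm_neg])
  have h1 := (hact_symm b u hut)
  rw [hfix b] at h1
  have h2 : R b u = u := by
    have h3 := congrArg χ h1.2
    rwa [χ.right_inv h1.1, χ.right_inv hut] at h3
  rw [hb] at h2
  have h3 : u = 0 := by
    have h4 : (2 : ℝ) • u = 0 := by
      rw [two_smul]
      nth_rewrite 1 [← h2]
      exact neg_add_cancel u
    exact (smul_eq_zero.1 h4).resolve_left (by norm_num)
  rw [h3, norm_zero] at hun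
  exact hρ'0.ne hun

theorem hyp_of_spherical {r : ℕ∞} (hr : 1 ≤ r) {F : DiffM n N r} (hF : OmegaStable n N r F)
    {G : Type} [Group G] [TopologicalSpace G] [CompactSpace G] [PreconnectedSpace G] {q : ℕ}
    {ι : G →* Matrix (Fin q) (Fin q) ℂ} {act : G → N → N} (hact : IsLieAction n N ι univ act)
    (hcom : ∀ g y, F (act g y) = act g (F y)) {p : N}
    (hper : ∃ m : ℕ, 1 ≤ m ∧ F^[m] p = p) (hsph : IsSpherical n act p) : IsHypPer n F p := by
  obtain ⟨χ₀, R, l, E, hχ₀, htop, hE⟩ := hsph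
  obtain ⟨m, hmd⟩ : ∃ m : ℕ, m = Function.minimalPeriod F p := ⟨_, rfl⟩
  obtain ⟨m', hm'1, hm'⟩ := hper
  have hmpos : 0 < m := by
    rw [hmd]
    exact Function.IsPeriodicPt.minimalPeriod_pos (by omega) hm'
  have hmp : F^[m] p = p := by
    rw [hmd]
    exact Function.isPeriodicPt_minimalPeriod F p
  have hmin : ∀ i, 0 < i → i < m → F^[i] p ≠ p := by
    intro i hi0 him h
    rw [hmd] at him
    exact Function.not_isPeriodicPt_of_pos_of_lt_minimalPeriod hi0.ne' him h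
  obtain ⟨χ, hχ, hg, hχO⟩ := small_lin hχ₀ (((fun i => F^[i] p) '' Ioo 0 m)ᶜ)
    ((finite_Ioo 0 m).image _).isClosed.isOpen_compl (by
      rintro ⟨i, hi, hip⟩
      exact hmin i hi.1 hi.2 hip)
  have h0t : (0 : V n) ∈ χ.target := by rw [← hχ.zero]; exact χ.map_source hχ.src
  have hs0 : χ.symm 0 = p := by rw [← hχ.zero, χ.left_inv hχ.src]
  have hd : DifferentiableAt ℝ (fun u => χ (F^[m] (χ.symm u))) 0 :=
    chart_diff hr F m hχ.mem h0t (by rw [hs0, hmp]; exact hχ.src)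
  choose c hc hcE using fun i => block hr hF hact hcom hmpos hmp hχ hg hχO (E i) (hE i)
  refine ⟨m, hmpos, hmp, χ, hχ.mem, hχ.src, fderiv ℝ (fun u => χ (F^[m] (χ.symm u))) 0, ?_, l, E, c,
    htop, fun i => ⟨hc i, hcE i⟩⟩
  rw [hχ.zero]
  exact hd.hasFDerivAt

end

end Pool.Agent.TH80.OMS
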